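import Pool.Agent.H92.Lens.Fill

/-!
The cohomological obstruction: sections over a finite open cover force a divisibility.
-/

set_option autoImplicit false

namespace Pool.Agent.H92.Lens

open Finsupp Set Real

/-- A product of cochains vanishes on a list if one of the factors does. -/
theorem prodc_eq_zero {X : Type} {f : X → X → X → ℤ} {cs : List (X → X → X → ℤ)} (hf : f ∈ cs)
    (l : List X) (h : ∀ x ∈ l, ∀ y ∈ l, ∀ z ∈ l, f x y z = 0) : prodc cs l = 0 := by
  induction cs generalizing l with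
  | nil => simp at hf
  | cons g cs ih =>
    match l with
    | [] => rfl
    | [_] => rfl
    | [_, _] => rfl
    | a :: b :: c :: l =>
      rw [prodc, cup2]
      rcases List.mem_cons.1 hf with rfl | hf
      · rw [h a (by simp) b (by simp) c (by simp), zero_mul]
      · rw [ih hf (c :: l), mul_zero]
        intro x hx y hy z hz
        exact h x (by simp only [List.mem_cons] at hx ⊢; tauto)
          y (by simp only [List.mem_cons] at hy ⊢; tauto)
          z (by simp only [List.mem_cons] at hz ⊢; tauto)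

/-- Existence of the function `a` and the cochains built from it. -/
theorem exists_tau {X : Type} {T : X → X} {q : ℕ} (hq : 0 < q) (hT : T^[q] = id)
    (hfree : ∀ x j, T^[j] x = x → q ∣ j) : ∃ (a : X → ℤ) (A κ : X → X → ℤ) (x2 : X → X → X → ℤ),
      Tau T q a A κ x2 := by
  have hq' : (q : ℤ) ≠ 0 := by exact_mod_cast hq.ne'
  -- orbits
  have hiter : ∀ (i j : ℕ) (x : X), T^[i] (T^[j] x) = T^[i + j] x := by
    intro i j x
    rw [Function.iterate_add_apply]
  have hmul : ∀ (i : ℕ) (x : X), T^[q * i] x = x := by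
    intro i x
    rw [Function.iterate_mul, hT, Function.iterate_id]
    rfl
  let S : Setoid X := ⟨fun x y => ∃ j, y = T^[j] x, ⟨fun x => ⟨0, rfl⟩, by
    rintro x _ ⟨j, rfl⟩
    refine ⟨q * j - j, ?_⟩
    rw [hiter, Nat.sub_add_cancel (Nat.le_mul_of_pos_left _ hq), hmul], by
    rintro x _ _ ⟨j, rfl⟩ ⟨i, rfl⟩
    exact ⟨i + j, by rw [hiter]⟩⟩⟩
  have h1 : ∀ x : X, ∃ j, x = T^[j] (Quotient.out (Quotient.mk S x)) := fun x =>
    Quotient.mk_out (s := S) x
  choose a ha using h1
  have key : ∀ (x : X) (i j : ℕ), T^[i] x = T^[j] x → (q : ℤ) ∣ (i : ℤ) - j := by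
    intro x i j h
    have h2 : T^[i + (q * j - j)] x = x := by
      rw [add_comm, Function.iterate_add_apply, h, hiter,
        Nat.sub_add_cancel (Nat.le_mul_of_pos_left _ hq), hmul]
    have h3 := hfree x _ h2
    have h4 : ((i + (q * j - j) : ℕ) : ℤ) = (i : ℤ) - j + q * j := by
      rw [Nat.cast_add, Nat.cast_sub (Nat.le_mul_of_pos_left _ hq)]
      push_cast
      ring
    have h5 : (q : ℤ) ∣ (i : ℤ) - j + q * j := by
      rw [← h4]
      exact_mod_cast h3
    exact (dvd_add_left (dvd_mul_right _ _)).1 h5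
  have hstep : ∀ x, (q : ℤ) ∣ (a (T x) : ℤ) - a x - 1 := by
    intro x
    have h2 : Quotient.mk S (T x) = Quotient.mk S x := Quotient.sound (S.symm ⟨1, rfl⟩)
    have h3 := ha (T x)
    rw [h2] at h3
    have h4 : T x = T^[a x + 1] (Quotient.out (Quotient.mk S x)) := by
      rw [Function.iterate_succ_apply', ← ha x]
    have h5 := key _ _ _ (h3.symm.trans h4)
    push_cast at h5
    have : (a (T x) : ℤ) - (a x + 1) = (a (T x) : ℤ) - a x - 1 := by ring
    rwa [this] at h5
  refine ⟨fun x => a x, fun x y => ((a y : ℤ) - a x) % q, fun x y => -(((a y : ℤ) - a x) / q),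
    fun x y z => ((((a z : ℤ) - a y) % q) - (((a z : ℤ) - a x) % q) + (((a y : ℤ) - a x) % q)) / q,
    hstep, ?_, ?_, ?_⟩
  · intro x y
    obtain ⟨c, hc⟩ := hstep x
    obtain ⟨d, hd⟩ := hstep y
    have : (a (T y) : ℤ) - a (T x) = (a y : ℤ) - a x + q * (d - c) := by
      linear_combination hd - hc
    show ((a (T y) : ℤ) - a (T x)) % q = ((a y : ℤ) - a x) % q
    rw [this, Int.add_mul_emod_self_left]
  · intro x y
    show ((a y : ℤ) - a x) % q = _
    rw [Int.emod_def]
    ring
  · intro x y z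
    show (q : ℤ) * (_ / (q : ℤ)) = _
    apply Int.mul_ediv_cancel'
    refine ⟨-(((a z : ℤ) - a y) / q) + (((a z : ℤ) - a x) / q) - (((a y : ℤ) - a x) / q), ?_⟩
    rw [Int.emod_def, Int.emod_def, Int.emod_def]
    ring

/-- The small difference of arguments. -/
noncomputable def dl (u v : Circle) : ℝ := Complex.arg ((v / u : Circle) : ℂ) / (2 * π)

theorem exp_dl (u v : Circle) : Circle.exp (2 * π * dl u v) = v / u := by
  rw [dl, mul_div_cancel₀ _ (by positivity), Circle.exp_arg]

theorem dl_small {u v : Circle} (h : dist u v < 1) : |dl u v| < 1 / 3 := by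
  have h1 : ‖((v / u : Circle) : ℂ) - 1‖ < 1 := by
    have h2 : ((v / u : Circle) : ℂ) - 1 = ((v : ℂ) - u) / u := by
      rw [Circle.coe_div, sub_div, div_self (Circle.coe_ne_zero u)]
    rw [h2, norm_div, Circle.norm_coe, div_one, ← dist_eq_norm, dist_comm]
    exact h
  have h3 : 0 < ((v / u : Circle) : ℂ).re := by
    have h4 := (Complex.abs_re_le_norm (((v / u : Circle) : ℂ) - 1)).trans_lt h1
    rw [Complex.sub_re, Complex.one_re, abs_lt] at h4
    linarith [h4.1]
  have h5 : |Complex.arg ((v / u : Circle) : ℂ)| < π / 2 :=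
    Complex.abs_arg_lt_pi_div_two_iff.2 (Or.inl h3)
  rw [dl, abs_div, abs_of_pos (by positivity : (0 : ℝ) < 2 * π), div_lt_iff₀ (by positivity)]
  nlinarith [Real.pi_pos]

/-- Local sections give cochains which vanish on small triples. -/
theorem exists_cochain {X : Type} {T : X → X} {p r : ℕ} (hp : 0 < p) (hr : 0 < r)
    {a : X → ℤ} {A κ : X → X → ℤ} {x2 : X → X → X → ℤ} (h : Tau T (p * r) a A κ x2) (U : Set X)
    (hU : ∀ x, T x ∈ U ↔ x ∈ U) (σ : X → Circle)
    (hσ : ∀ x ∈ U, σ (T x) = Circle.exp (2 * π / r) * σ x) :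
    ∃ B : X → X → ℤ, (∀ x y, B (T x) (T y) = B x y) ∧
      ∀ x ∈ U, ∀ y ∈ U, ∀ z ∈ U, dist (σ x) (σ y) < 1 → dist (σ x) (σ z) < 1 →
        dist (σ y) (σ z) < 1 → p * x2 x y z + (B y z - B x z + B x y) = 0 := by
  have hr' : (r : ℝ) ≠ 0 := by exact_mod_cast hr.ne'
  have hp' : (p : ℝ) ≠ 0 := by exact_mod_cast hp.ne'
  set ψ : X → ℝ := fun x => Complex.arg ((σ x * Circle.exp (-(2 * π * a x / r)) : Circle) : ℂ)
    / (2 * π) with hψ
  have hψe : ∀ x, Circle.exp (2 * π * ψ x) = σ x * Circle.exp (-(2 * π * a x / r)) := by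
    intro x
    rw [hψ]
    simp only []
    rw [mul_div_cancel₀ _ (by positivity), Circle.exp_arg]
  have hψT : ∀ x ∈ U, ψ (T x) = ψ x := by
    intro x hx
    obtain ⟨c, hc⟩ := h.step x
    have h1 : (a (T x) : ℝ) = a x + 1 + p * r * c := by
      have : a (T x) = a x + 1 + (p * r : ℕ) * c := by linear_combination hc
      rw [this]
      push_cast
      ring
    have h2 : σ (T x) * Circle.exp (-(2 * π * a (T x) / r))
        = σ x * Circle.exp (-(2 * π * a x / r)) := by
      rw [hσ x hx, mul_comm _ (σ x), mul_assoc]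
      congr 1
      rw [← Circle.exp_add, h1, Circle.exp_eq_exp]
      refine ⟨-(p * c), ?_⟩
      push_cast
      field_simp
      ring
    rw [hψ]
    simp only []
    rw [h2]
  set R : X → X → ℝ := fun x y => dl (σ x) (σ y) - (ψ y - ψ x) - A x y / r with hR
  have hRT : ∀ x ∈ U, ∀ y ∈ U, R (T x) (T y) = R x y := by
    intro x hx y hy
    have h1 : dl (σ (T x)) (σ (T y)) = dl (σ x) (σ y) := by
      rw [dl, dl, hσ x hx, hσ y hy, mul_div_mul_left_eq_div]
    rw [hR]
    simp only []
    rw [h1, hψT x hx, hψT y hy, h.inv]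
  have hRint : ∀ x y, ∃ b : ℤ, R x y = b := by
    intro x y
    have h1 : Circle.exp (2 * π * R x y) = 1 := by
      have h2 : 2 * π * R x y = 2 * π * dl (σ x) (σ y) + (-(2 * π * ψ y)) + 2 * π * ψ x
          + (-(2 * π * (A x y / r))) := by
        rw [hR]; ring
      rw [h2, Circle.exp_add, Circle.exp_add, Circle.exp_add, Circle.exp_neg (2 * π * ψ y),
        exp_dl, hψe, hψe]
      have h3 : σ y / σ x * (σ y * Circle.exp (-(2 * π * a y / r)))⁻¹
          * (σ x * Circle.exp (-(2 * π * a x / r))) * Circle.exp (-(2 * π * (A x y / r)))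
          = (Circle.exp (-(2 * π * a y / r)))⁻¹ * Circle.exp (-(2 * π * a x / r))
            * Circle.exp (-(2 * π * (A x y / r))) := by
        rw [div_eq_mul_inv, mul_inv]
        have e1 : σ x * (σ x)⁻¹ = 1 := mul_inv_cancel _
        have e2 : σ y * (σ y)⁻¹ = 1 := mul_inv_cancel _
        calc _ = (σ x * (σ x)⁻¹) * (σ y * (σ y)⁻¹) * ((Circle.exp (-(2 * π * a y / r)))⁻¹
              * Circle.exp (-(2 * π * a x / r)) * Circle.exp (-(2 * π * (A x y / r)))) := by
              ac_rfl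
          _ = _ := by rw [e1, e2, one_mul, one_mul]
      rw [h3, ← Circle.exp_neg, ← Circle.exp_add, ← Circle.exp_add, Circle.exp_eq_one]
      refine ⟨-(p * κ x y), ?_⟩
      rw [h.red x y]
      push_cast
      field_simp
      ring
    obtain ⟨b, hb⟩ := Circle.exp_eq_one.1 h1
    refine ⟨b, ?_⟩
    have : 2 * π ≠ 0 := by positivity
    apply mul_left_cancel₀ this
    rw [hb]; ring
  choose b hb using hRint
  classical
  refine ⟨fun x y => if x ∈ U ∧ y ∈ U then b x y else 0, ?_, ?_⟩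
  · intro x y
    simp only [hU]
    split_ifs with hxy
    · have := hRT x hxy.1 y hxy.2
      rw [hb, hb] at this
      exact_mod_cast this
    · rfl
  · intro x hx y hy z hz hxy hxz hyz
    simp only [hx, hy, hz, and_self, if_true]
    have h1 := abs_lt.1 (dl_small hxy)
    have h2 := abs_lt.1 (dl_small hxz)
    have h3 := abs_lt.1 (dl_small hyz)
    have h4 : ((p * x2 x y z + (b y z - b x z + b x y) : ℤ) : ℝ)
        = dl (σ y) (σ z) - dl (σ x) (σ z) + dl (σ x) (σ y) := by
      have h5 : (p * r : ℝ) * x2 x y z = A y z - A x z + A x y := by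
        exact_mod_cast h.two x y z
      have h6 : (p : ℝ) * x2 x y z = A y z / r - A x z / r + A x y / r := by
        field_simp
        linear_combination h5
      push_cast
      rw [← hb, ← hb, ← hb, h6]
      rw [hR]
      ring
    have h7 : (-1 : ℝ) < ((p * x2 x y z + (b y z - b x z + b x y) : ℤ) : ℝ) := by
      rw [h4]; linarith [h1.1, h2.2, h3.1]
    have h8 : ((p * x2 x y z + (b y z - b x z + b x y) : ℤ) : ℝ) < 1 := by
      rw [h4]; linarith [h1.2, h2.1, h3.2]
    have h9 : (-1 : ℤ) < p * x2 x y z + (b y z - b x z + b x y) := by exact_mod_cast h7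
    have h10 : p * x2 x y z + (b y z - b x z + b x y) < 1 := by exact_mod_cast h8
    omega

/-- The obstruction. -/
theorem dvd_of_cover {X : Type} [MetricSpace X] [CompactSpace X] {T : X → X} {p r n : ℕ}
    (hp : 0 < p) (hr : 0 < r) (hT : T^[p * r] = id) (hfree : ∀ x j, T^[j] x = x → p * r ∣ j)
    (hres : ∀ ε > 0, ∃ e : ℕ → Ch X, Res T (p * r) n e ∧
      ∀ i, i ≤ 2 * n → ∃ E : Set X, e i ∈ On (Sm E ε (i + 1)))
    (U : Fin n → Set X) (hUo : ∀ i, IsOpen (U i)) (hcov : ∀ x, ∃ i, x ∈ U i)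
    (hU : ∀ i x, T x ∈ U i ↔ x ∈ U i) (σ : Fin n → X → Circle)
    (hc : ∀ i, ContinuousOn (σ i) (U i))
    (hσ : ∀ i, ∀ x ∈ U i, σ i (T x) = Circle.exp (2 * π / r) * σ i x) :
    ((p * r : ℕ) : ℤ) ∣ (p : ℤ) ^ n := by
  have hq : 0 < p * r := Nat.mul_pos hp hr
  obtain ⟨a, A, κ, x2, h⟩ := exists_tau hq hT hfree
  -- shrinking
  obtain ⟨V, hVcov, hVo, hVU⟩ := exists_iUnion_eq_closure_subset (u := U) hUo
    (fun x => Set.toFinite _) (by
      rw [Set.eq_univ_iff_forall]; intro x; exact Set.mem_iUnion.2 (hcov x))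
  have hK : ∀ i, IsCompact (closure (V i)) := fun i => isClosed_closure.isCompact
  have huc : ∀ i, ∃ δ > 0, ∀ x ∈ closure (V i), ∀ y ∈ closure (V i), dist x y < δ →
      dist (σ i x) (σ i y) < 1 := by
    intro i
    have h1 := (hK i).uniformContinuousOn_of_continuous ((hc i).mono (hVU i))
    exact Metric.uniformContinuousOn_iff.1 h1 1 one_pos
  choose δ hδ hδ' using huc
  obtain ⟨δ0, hδ0, hleb⟩ := lebesgue_number_lemma_of_metric (isCompact_univ (X := X)) hVo
    (by rw [hVcov])
  obtain ⟨ε, hε, hε0, hεδ⟩ : ∃ ε > 0, ε ≤ δ0 ∧ ∀ i, ε ≤ δ i := by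
    rcases isEmpty_or_nonempty (Fin n) with hn | hn
    · exact ⟨δ0, hδ0, le_rfl, fun i => (hn.false i).elim⟩
    · refine ⟨min δ0 (Finset.univ.inf' Finset.univ_nonempty δ), ?_, min_le_left _ _, ?_⟩
      · refine lt_min hδ0 ?_
        rw [Finset.lt_inf'_iff]
        intro i _
        exact hδ i
      · intro i
        exact (min_le_right _ _).trans (Finset.inf'_le _ (Finset.mem_univ i))
  obtain ⟨e, he, hE⟩ := hres ε hε
  have hB := fun i => exists_cochain hp hr h (U i) (hU i) (σ i) (hσ i)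
  choose B hB1 hB2 using hB
  set cs : List (X → X → X → ℤ) := List.ofFn fun i : Fin n =>
    fun x y z => (p : ℤ) * x2 x y z + (B i y z - B i x z + B i x y) with hcs
  have hlen : cs.length = n := by rw [hcs, List.length_ofFn]
  have hev := ev_prodc h hq he p cs hlen.le (by
    intro f hf
    rw [hcs, List.mem_ofFn] at hf
    obtain ⟨i, rfl⟩ := hf
    exact ⟨B i, hB1 i, fun x y z => rfl⟩)
  rw [hlen] at hev
  obtain ⟨E, hE⟩ := hE (2 * n) le_rfl
  have hzero : ev (prodc cs) (e (2 * n)) = 0 := by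
    have h1 : ev (prodc cs) (e (2 * n)) = ev (fun _ => (0 : ℤ)) (e (2 * n)) := by
      refine ev_congr ?_ hE
      rintro l ⟨hl1, -, hl3⟩
      obtain ⟨x0, hx0⟩ : ∃ x0, x0 ∈ l := by
        match l, hl1 with
        | x :: l, _ => exact ⟨x, by simp⟩
      obtain ⟨i, hi⟩ := hleb x0 (mem_univ _)
      have hlV : ∀ x ∈ l, x ∈ V i := fun x hx =>
        hi (Metric.mem_ball.2 ((hl3 x hx x0 hx0).trans_le hε0))
      refine prodc_eq_zero (f := fun x y z => (p : ℤ) * x2 x y z + (B i y z - B i x z + B i x y))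
        ?_ l ?_
      · rw [hcs, List.mem_ofFn]
        exact ⟨i, rfl⟩
      · intro x hx y hy z hz
        have hc' : ∀ x ∈ l, x ∈ closure (V i) := fun x hx => subset_closure (hlV x hx)
        exact hB2 i x (hVU i (hc' x hx)) y (hVU i (hc' y hy)) z (hVU i (hc' z hz))
          (hδ' i x (hc' x hx) y (hc' y hy) ((hl3 x hx y hy).trans_le (hεδ i)))
          (hδ' i x (hc' x hx) z (hc' z hz) ((hl3 x hx z hz).trans_le (hεδ i)))
          (hδ' i y (hc' y hy) z (hc' z hz) ((hl3 y hy z hz).trans_le (hεδ i)))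
    rw [h1]
    have h2 := ev_smul_left 0 (fun _ : List X => (0 : ℤ)) (e (2 * n))
    simpa using h2
  rw [hzero] at hev
  exact (Int.modEq_zero_iff_dvd.1 hev.symm)

end Pool.Agent.H92.Lens
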