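import Pool.Agent.H92.Lens.Sphere

/-!
The cells of the sphere, and small truncated resolutions.
-/

set_option autoImplicit false

namespace Pool.Agent.H92.Lens

open Set Real ComplexConjugate

variable {m : ℕ}

/-- The even cones. -/
def CE (m i : ℕ) : Set (EuclideanSpace ℂ (Fin m)) :=
  {x | (∀ l : Fin m, i < (l : ℕ) → x l = 0) ∧ ∀ l : Fin m, (l : ℕ) = i → (x l).im = 0 ∧ 0 ≤ (x l).re}

/-- The odd cones. -/
def CO (m : ℕ) (w : ℂ) (i : ℕ) : Set (EuclideanSpace ℂ (Fin m)) :=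
  {x | (∀ l : Fin m, i < (l : ℕ) → x l = 0) ∧ ∀ l : Fin m, (l : ℕ) = i → 0 ≤ (x l * conj w).re}

theorem isClosed_CE (i : ℕ) : IsClosed (CE m i) := by
  have h : CE m i = (⋂ l : Fin m, ⋂ _ : i < (l : ℕ), {x | x l = 0}) ∩
      ⋂ l : Fin m, ⋂ _ : (l : ℕ) = i, ({x | (x l).im = 0} ∩ {x | 0 ≤ (x l).re}) := by
    ext x
    simp only [CE, mem_ofPred_eq, mem_inter_iff, mem_iInter]
  rw [h]
  refine IsClosed.inter (isClosed_iInter fun l => isClosed_iInter fun _ => ?_)
    (isClosed_iInter fun l => isClosed_iInter fun _ => IsClosed.inter ?_ ?_)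
  · exact isClosed_eq (by fun_prop) (by fun_prop)
  · exact isClosed_eq (by fun_prop) (by fun_prop)
  · exact isClosed_le (by fun_prop) (by fun_prop)

theorem isClosed_CO (w : ℂ) (i : ℕ) : IsClosed (CO m w i) := by
  have h : CO m w i = (⋂ l : Fin m, ⋂ _ : i < (l : ℕ), {x | x l = 0}) ∩
      ⋂ l : Fin m, ⋂ _ : (l : ℕ) = i, {x | 0 ≤ (x l * conj w).re} := by
    ext x
    simp only [CO, mem_ofPred_eq, mem_inter_iff, mem_iInter]
  rw [h]
  refine IsClosed.inter (isClosed_iInter fun l => isClosed_iInter fun _ => ?_)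
    (isClosed_iInter fun l => isClosed_iInter fun _ => ?_)
  · exact isClosed_eq (by fun_prop) (by fun_prop)
  · exact isClosed_le (by fun_prop) (by fun_prop)

theorem apply_comb (x y : EuclideanSpace ℂ (Fin m)) (a b : ℝ) (l : Fin m) :
    (a • x + b • y) l = a * x l + b * y l := by
  simp [Complex.real_smul]

theorem CE_add (i : ℕ) : ∀ x ∈ CE m i, ∀ y ∈ CE m i, ∀ a b : ℝ, 0 ≤ a → 0 ≤ b →
    a • x + b • y ∈ CE m i := by
  intro x hx y hy a b ha hb
  refine ⟨?_, ?_⟩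
  · intro l hl
    rw [apply_comb, hx.1 l hl, hy.1 l hl]
    simp
  · intro l hl
    obtain ⟨h1, h2⟩ := hx.2 l hl
    obtain ⟨h3, h4⟩ := hy.2 l hl
    rw [apply_comb]
    simp only [Complex.add_im, Complex.add_re, Complex.re_ofReal_mul, Complex.im_ofReal_mul, h1, h3]
    refine ⟨by ring, by positivity⟩

theorem CO_add (w : ℂ) (i : ℕ) : ∀ x ∈ CO m w i, ∀ y ∈ CO m w i, ∀ a b : ℝ, 0 ≤ a → 0 ≤ b →
    a • x + b • y ∈ CO m w i := by
  intro x hx y hy a b ha hb
  refine ⟨?_, ?_⟩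
  · intro l hl
    rw [apply_comb, hx.1 l hl, hy.1 l hl]
    simp
  · intro l hl
    have h1 := hx.2 l hl
    have h3 := hy.2 l hl
    rw [apply_comb, add_mul, mul_assoc, mul_assoc]
    simp only [Complex.add_re, Complex.re_ofReal_mul]
    positivity

/-- The functional `x ↦ Re (x l * conj w)`. -/
noncomputable def fnl (l : Fin m) (w : ℂ) : EuclideanSpace ℂ (Fin m) →ₗ[ℝ] ℝ where
  toFun x := (x l * conj w).re
  map_add' x y := by simp [add_mul]
  map_smul' a x := by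
    have h : (a • x) l = (a : ℂ) * x l := by simp [Complex.real_smul]
    rw [h, mul_assoc, Complex.re_ofReal_mul]
    rfl

theorem norm_single' (l : Fin m) (w : ℂ) (hw : ‖w‖ = 1) :
    EuclideanSpace.single l w ∈ Metric.sphere (0 : EuclideanSpace ℂ (Fin m)) 1 := by
  rw [mem_sphere_zero_iff_norm, PiLp.norm_single, hw]

theorem contr_CE {i : ℕ} (hi : i < m) :
    Contr {x : Sph m | (x : EuclideanSpace ℂ (Fin m)) ∈ CE m i} := by
  refine contr_of_cone (CE m i) (isClosed_CE i) (CE_add i)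
    ⟨EuclideanSpace.single ⟨i, hi⟩ 1, norm_single' _ _ (by simp)⟩ ?_ (fnl ⟨i, hi⟩ 1) ?_ ?_
  · refine ⟨?_, ?_⟩
    · intro l hl
      have : l ≠ ⟨i, hi⟩ := by rintro rfl; simp at hl
      simp [this]
    · intro l hl
      obtain rfl : l = ⟨i, hi⟩ := Fin.ext hl
      simp
  · intro x hx
    simp only [fnl, map_one, mul_one, LinearMap.coe_mk, AddHom.coe_mk]
    exact (hx.2 ⟨i, hi⟩ rfl).2
  · simp [fnl]

theorem contr_CO {i : ℕ} (hi : i < m) {w : ℂ} (hw : ‖w‖ = 1) :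
    Contr {x : Sph m | (x : EuclideanSpace ℂ (Fin m)) ∈ CO m w i} := by
  have hww : (w * conj w).re = 1 := by
    rw [Complex.mul_conj, Complex.normSq_eq_norm_sq, hw]
    simp
  refine contr_of_cone (CO m w i) (isClosed_CO w i) (CO_add w i)
    ⟨EuclideanSpace.single ⟨i, hi⟩ w, norm_single' _ _ hw⟩ ?_ (fnl ⟨i, hi⟩ w) ?_ ?_
  · refine ⟨?_, ?_⟩
    · intro l hl
      have : l ≠ ⟨i, hi⟩ := by rintro rfl; simp at hl
      simp [this]
    · intro l hl
      obtain rfl : l = ⟨i, hi⟩ := Fin.ext hl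
      show 0 ≤ ((EuclideanSpace.single (⟨i, hi⟩ : Fin m) w) ⟨i, hi⟩ * conj w).re
      rw [PiLp.single_apply, if_pos rfl, hww]
      exact zero_le_one
  · intro x hx
    exact hx.2 ⟨i, hi⟩ rfl
  · show 0 < ((EuclideanSpace.single (⟨i, hi⟩ : Fin m) w) ⟨i, hi⟩ * conj w).re
    rw [PiLp.single_apply, if_pos rfl, hww]
    exact zero_lt_one

/-- The half angle. -/
noncomputable def hlf (q : ℕ) : Circle := Circle.exp (π / q)

theorem hlf_mul (q : ℕ) : hlf q * hlf q = ζ q := by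
  rw [hlf, ← Circle.exp_add, ζ]
  congr 1
  ring

theorem hlf_re {q : ℕ} (hq : 2 ≤ q) : 0 ≤ ((hlf q : Circle) : ℂ).re := by
  rw [hlf, Circle.coe_exp, Complex.exp_ofReal_mul_I_re]
  have hq' : (2 : ℝ) ≤ q := by exact_mod_cast hq
  have h1 : π / q ≤ π / 2 := div_le_div_of_nonneg_left Real.pi_pos.le (by norm_num) hq'
  exact Real.cos_nonneg_of_mem_Icc ⟨by
    have : 0 ≤ π / q := by positivity
    linarith [Real.pi_pos], h1⟩

theorem ζ_mul_conj (q : ℕ) : ((ζ q : Circle) : ℂ) * conj ((hlf q : Circle) : ℂ) = hlf q := by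
  rw [← hlf_mul, Circle.coe_mul, mul_assoc, ← Circle.coe_inv_eq_conj, ← Circle.coe_mul,
    mul_inv_cancel, Circle.coe_one, mul_one]

/-- The cells. -/
noncomputable def cell (m q j : ℕ) : Set (Sph m) :=
  {x | (x : EuclideanSpace ℂ (Fin m)) ∈ if Even j then CE m (j / 2) else CO m (hlf q) (j / 2)}

theorem CO_sub_CE {w : ℂ} {i : ℕ} {x : Sph m} (z : Circle)
    (hx : (x : EuclideanSpace ℂ (Fin m)) ∈ CO m w i) :
    (Sph.rot z x : EuclideanSpace ℂ (Fin m)) ∈ CE m (i + 1) := by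
  refine ⟨?_, ?_⟩
  · intro l hl
    rw [Sph.rot_apply, hx.1 l (by omega), mul_zero]
  · intro l hl
    rw [Sph.rot_apply, hx.1 l (by omega), mul_zero]
    simp

theorem small_res {m q n : ℕ} (hq : 2 ≤ q) (hn : n < m) {ε : ℝ} (hε : 0 < ε) :
    ∃ e : ℕ → Ch (Sph m), Res (Sph.rot (ζ q)) q n e ∧
      ∀ i, i ≤ 2 * n → ∃ E : Set (Sph m), e i ∈ On (Sm E ε (i + 1)) := by
  have hT : (Sph.rot (ζ q) : Sph m → Sph m)^[q] = id := by
    funext x
    rw [Sph.rot_iterate, ζ_pow_self (by omega), Sph.rot_one]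
    rfl
  have hodd : ∀ j, ¬ Even j → ∀ x ∈ cell m q j, ∀ z : Circle, Sph.rot z x ∈ cell m q (j + 1) := by
    intro j hj x hx z
    have h1 : Even (j + 1) := by simpa [Nat.even_add_one] using hj
    have h2 : (j + 1) / 2 = j / 2 + 1 := by
      obtain ⟨i, rfl⟩ := Nat.not_even_iff_odd.1 hj
      omega
    simp only [cell, mem_ofPred_eq, if_neg hj] at hx
    simp only [cell, mem_ofPred_eq, if_pos h1, h2]
    exact CO_sub_CE z hx
  have heven : ∀ j, Even j → ∀ x ∈ cell m q j, x ∈ cell m q (j + 1) ∧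
      Sph.rot (ζ q) x ∈ cell m q (j + 1) := by
    intro j hj x hx
    have h1 : ¬ Even (j + 1) := by simpa [Nat.even_add_one] using hj
    have h2 : (j + 1) / 2 = j / 2 := by
      obtain ⟨i, rfl⟩ := hj
      omega
    simp only [cell, mem_ofPred_eq, if_pos hj] at hx
    simp only [cell, mem_ofPred_eq, if_neg h1, h2]
    refine ⟨⟨hx.1, ?_⟩, ⟨?_, ?_⟩⟩
    · intro l hl
      obtain ⟨h3, h4⟩ := hx.2 l hl
      rw [Complex.mul_re, h3, Complex.conj_re, zero_mul, sub_zero]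
      exact mul_nonneg h4 (hlf_re hq)
    · intro l hl
      rw [Sph.rot_apply, hx.1 l hl, mul_zero]
    · intro l hl
      obtain ⟨h3, h4⟩ := hx.2 l hl
      rw [Sph.rot_apply, mul_assoc, mul_comm, mul_assoc, mul_comm (conj _), ζ_mul_conj,
        Complex.mul_re, h3, zero_mul, sub_zero]
      exact mul_nonneg h4 (hlf_re hq)
  have h1 : ∀ j, j ≤ 2 * n → Contr (cell m q j) := by
    intro j hj
    unfold cell
    split_ifs
    · exact contr_CE (by omega)
    · exact contr_CO (by omega) (Circle.norm_coe _)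
  have h2 : ∀ j, j < 2 * n → cell m q j ⊆ cell m q (j + 1) := by
    intro j _ x hx
    by_cases h : Even j
    · exact (heven j h x hx).1
    · have := hodd j h x hx 1
      rwa [Sph.rot_one] at this
  have h3 : ∀ j, j < 2 * n → ∀ x ∈ cell m q j, Sph.rot (ζ q) x ∈ cell m q (j + 1) := by
    intro j _ x hx
    by_cases h : Even j
    · exact (heven j h x hx).2
    · exact hodd j h x hx _
  have h4 : ∀ j, j < 2 * n → ¬ Even j → ∀ t, ∀ x ∈ cell m q j,
      (Sph.rot (ζ q))^[t] x ∈ cell m q (j + 1) := by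
    intro j _ h t x hx
    rw [Sph.rot_iterate]
    exact hodd j h x hx _
  obtain ⟨e, he, hE⟩ := exists_res' (T := (Sph.rot (ζ q) : Sph m → Sph m)) hT (Sph.dist_rot _)
    (cell m q) n h1 h2 h3 h4 hε
  exact ⟨e, he, fun i hi => ⟨_, hE i hi⟩⟩

end Pool.Agent.H92.Lens
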