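import Mathlib

/-!
Ordered chains: formal integral sums of lists of points, with the boundary operator, cup products with
cochains of degree 0, 1, 2, and the evaluation of powers of the Bockstein class on the chains of a
truncated periodic resolution.
-/

set_option autoImplicit false

namespace Pool.Agent.H92.Lens

open Finsupp

variable {X : Type}

/-- Integral ordered chains; a list of length `j + 1` is a simplex of dimension `j`. -/
abbrev Ch (X : Type) := List X →₀ ℤ

/-- The cone operator. -/
noncomputable def cone (v : X) : Ch X →ₗ[ℤ] Ch X := Finsupp.lmapDomain ℤ ℤ (List.cons v)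

theorem cone_single (v : X) (l : List X) (c : ℤ) : cone v (single l c) = single (v :: l) c := by
  simp [cone]

/-- The boundary of a list. -/
noncomputable def bdL : List X → Ch X
  | [] => 0
  | v :: l => single l 1 - cone v (bdL l)

/-- The boundary operator. -/
noncomputable def bd : Ch X →ₗ[ℤ] Ch X := Finsupp.linearCombination ℤ bdL

theorem bd_single (l : List X) (a : ℤ) : bd (single l a) = a • bdL l := by
  simp [bd]

theorem bd_cone (v : X) (c : Ch X) : bd (cone v c) = c - cone v (bd c) := by
  induction c using Finsupp.induction_linear with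
  | zero => simp
  | add f g hf hg => simp only [map_add, hf, hg]; abel
  | single l a =>
    rw [cone_single, bd_single, bd_single, bdL, smul_sub, map_smul]
    simp

/-- The map induced by a map of points. -/
noncomputable def mp {Y : Type} (f : X → Y) : Ch X →ₗ[ℤ] Ch Y := Finsupp.lmapDomain ℤ ℤ (List.map f)

theorem mp_single {Y : Type} (f : X → Y) (l : List X) (c : ℤ) :
    mp f (single l c) = single (l.map f) c := by
  simp [mp]

theorem mp_cone {Y : Type} (f : X → Y) (v : X) (c : Ch X) : mp f (cone v c) = cone (f v) (mp f c) := by
  induction c using Finsupp.induction_linear with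
  | zero => simp
  | add f g hf hg => simp only [map_add, hf, hg]
  | single l a => rw [cone_single, mp_single, mp_single, cone_single, List.map_cons]

theorem bdL_map {Y : Type} (f : X → Y) (l : List X) : bdL (l.map f) = mp f (bdL l) := by
  induction l with
  | nil => simp [bdL]
  | cons v l ih => rw [List.map_cons, bdL, bdL, ih, map_sub, mp_single, mp_cone]

theorem bd_mp {Y : Type} (f : X → Y) (c : Ch X) : bd (mp f c) = mp f (bd c) := by
  induction c using Finsupp.induction_linear with
  | zero => simp
  | add f g hf hg => simp only [map_add, hf, hg]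
  | single l a => rw [mp_single, bd_single, bd_single, map_smul, bdL_map]

/-- The prism operator on lists. -/
noncomputable def prL {Y : Type} (f g : X → Y) : List X → Ch Y
  | [] => 0
  | a :: l => single (f a :: g a :: l.map g) 1 - cone (f a) (prL f g l)

/-- The prism operator. -/
noncomputable def pr {Y : Type} (f g : X → Y) : Ch X →ₗ[ℤ] Ch Y := Finsupp.linearCombination ℤ (prL f g)

theorem pr_single {Y : Type} (f g : X → Y) (l : List X) (a : ℤ) :
    pr f g (single l a) = a • prL f g l := by
  simp [pr]

theorem pr_cone {Y : Type} (f g : X → Y) (v : X) (c : Ch X) :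
    pr f g (cone v c) = cone (f v) (cone (g v) (mp g c)) - cone (f v) (pr f g c) := by
  induction c using Finsupp.induction_linear with
  | zero => simp
  | add f g hf hg => simp only [map_add, hf, hg]; abel
  | single l a =>
    rw [cone_single, pr_single, prL, mp_single, cone_single, cone_single, pr_single, map_smul,
      smul_sub]
    simp

theorem bd_prL {Y : Type} (f g : X → Y) (l : List X) :
    bd (prL f g l) = single (l.map g) 1 - single (l.map f) 1 - pr f g (bdL l) := by
  induction l with
  | nil => simp [prL, bdL]
  | cons a l ih =>
    have h1 : (single (f a :: g a :: l.map g) 1 : Ch Y)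
        = cone (f a) (cone (g a) (single (l.map g) 1)) := by rw [cone_single, cone_single]
    have h2 : pr f g (bdL (a :: l)) = prL f g l
        - (cone (f a) (cone (g a) (mp g (bdL l))) - cone (f a) (pr f g (bdL l))) := by
      rw [bdL, map_sub, pr_cone, pr_single, one_smul]
    rw [h2, prL, map_sub, bd_cone, ih, h1, bd_cone, bd_cone, bd_single, one_smul, ← bdL_map]
    simp only [map_sub, cone_single, List.map_cons]
    abel

theorem bd_pr {Y : Type} (f g : X → Y) (c : Ch X) :
    bd (pr f g c) = mp g c - mp f c - pr f g (bd c) := by
  induction c using Finsupp.induction_linear with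
  | zero => simp
  | add f g hf hg => simp only [map_add, hf, hg]; abel
  | single l a =>
    rw [pr_single, map_smul, bd_prL, mp_single, mp_single, bd_single, map_smul, smul_sub, smul_sub]
    simp

/-- Evaluation of a cochain on a chain. -/
noncomputable def ev (φ : List X → ℤ) : Ch X →ₗ[ℤ] ℤ := Finsupp.linearCombination ℤ φ

theorem ev_single (φ : List X → ℤ) (l : List X) (a : ℤ) : ev φ (single l a) = a * φ l := by
  simp [ev]

theorem ev_add_left (φ ψ : List X → ℤ) (c : Ch X) :
    ev (fun l => φ l + ψ l) c = ev φ c + ev ψ c := by
  induction c using Finsupp.induction_linear with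
  | zero => simp
  | add f g hf hg => simp only [map_add, hf, hg]; ring
  | single l a => simp only [ev_single]; ring

theorem ev_smul_left (r : ℤ) (φ : List X → ℤ) (c : Ch X) :
    ev (fun l => r * φ l) c = r * ev φ c := by
  induction c using Finsupp.induction_linear with
  | zero => simp
  | add f g hf hg => simp only [map_add, hf, hg]; ring
  | single l a => simp only [ev_single]; ring

theorem ev_mp {Y : Type} (f : X → Y) (φ : List Y → ℤ) (c : Ch X) :
    ev φ (mp f c) = ev (fun l => φ (l.map f)) c := by
  induction c using Finsupp.induction_linear with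
  | zero => simp
  | add f g hf hg => simp only [map_add, hf, hg]
  | single l a => simp only [mp_single, ev_single]

/-- Chains supported on a set of lists. -/
abbrev On (s : Set (List X)) : Submodule ℤ (Ch X) := Finsupp.supported ℤ ℤ s

theorem single_mem {s : Set (List X)} {l : List X} (h : l ∈ s) (a : ℤ) : single l a ∈ On s :=
  Finsupp.single_mem_supported ℤ a h

theorem map_mem {Y : Type} {s : Set (List X)} {t : Set (List Y)} (F : Ch X →ₗ[ℤ] Ch Y)
    (h : ∀ l ∈ s, F (single l 1) ∈ On t) {c : Ch X} (hc : c ∈ On s) : F c ∈ On t := by
  have h1 : On s ≤ (On t).comap F := by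
    rw [On, Finsupp.supported_eq_span_single, Submodule.span_le]
    rintro _ ⟨l, hl, rfl⟩
    exact h l hl
  exact h1 hc

theorem on_mono {s t : Set (List X)} (h : s ⊆ t) {c : Ch X} (hc : c ∈ On s) : c ∈ On t :=
  Finsupp.supported_mono h hc

theorem ev_congr {s : Set (List X)} {φ ψ : List X → ℤ} (h : ∀ l ∈ s, φ l = ψ l) {c : Ch X}
    (hc : c ∈ On s) : ev φ c = ev ψ c := by
  have h1 : On s ≤ LinearMap.eqLocus (ev φ) (ev ψ) := by
    rw [On, Finsupp.supported_eq_span_single, Submodule.span_le]
    rintro _ ⟨l, hl, rfl⟩
    simp only [SetLike.mem_coe, LinearMap.mem_eqLocus, ev_single]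
    rw [h l hl]
  exact h1 hc

/-- The coboundary. -/
noncomputable def cb (φ : List X → ℤ) (l : List X) : ℤ := ev φ (bdL l)

theorem ev_bd (φ : List X → ℤ) (c : Ch X) : ev φ (bd c) = ev (cb φ) c := by
  induction c using Finsupp.induction_linear with
  | zero => simp
  | add f g hf hg => simp only [map_add, hf, hg]
  | single l a => rw [bd_single, map_smul, ev_single, smul_eq_mul, cb]

theorem ev_cone (φ : List X → ℤ) (v : X) (c : Ch X) :
    ev φ (cone v c) = ev (fun l => φ (v :: l)) c := by
  induction c using Finsupp.induction_linear with
  | zero => simp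
  | add f g hf hg => simp only [map_add, hf, hg]
  | single l a => simp only [cone_single, ev_single]

theorem cb_nil (φ : List X → ℤ) : cb φ [] = 0 := by simp [cb, bdL]

theorem cb_cons (φ : List X → ℤ) (v : X) (l : List X) :
    cb φ (v :: l) = φ l - cb (fun m => φ (v :: m)) l := by
  rw [cb, bdL, map_sub, ev_single, one_mul, ev_cone, cb]

theorem cb_smul (r : ℤ) (φ : List X → ℤ) (l : List X) :
    cb (fun m => r * φ m) l = r * cb φ l := by
  rw [cb, ev_smul_left, cb]

end Pool.Agent.H92.Lens
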