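import Pool.Agent.H92.Lens.Chain

/-!
Cup products of ordered cochains and their values on a truncated periodic resolution.
-/

set_option autoImplicit false

namespace Pool.Agent.H92.Lens

open Finsupp

variable {X : Type}

/-- Product of a 0-cochain with a cochain. -/
def cup0 (f : X → ℤ) (w : List X → ℤ) : List X → ℤ
  | [] => 0
  | a :: l => f a * w (a :: l)

/-- Product of a 1-cochain with a cochain. -/
def cup1 (A : X → X → ℤ) (w : List X → ℤ) : List X → ℤ
  | a :: b :: l => A a b * w (b :: l)
  | _ => 0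

/-- Product of a 2-cochain with a cochain. -/
def cup2 (c : X → X → X → ℤ) (w : List X → ℤ) : List X → ℤ
  | a :: b :: d :: l => c a b d * w (d :: l)
  | _ => 0

theorem cb_cup0 (f : X → ℤ) (w : List X → ℤ) (a b : X) (l : List X) :
    cb (cup0 f w) (a :: b :: l) = (f b - f a) * w (b :: l) + f a * cb w (a :: b :: l) := by
  have h1 : cb (fun m => cup0 f w (a :: m)) (b :: l) = f a * cb (fun m => w (a :: m)) (b :: l) := by
    rw [← cb_smul]
    rfl
  rw [cb_cons, h1, cb_cons w a]
  simp only [cup0]
  ring

theorem cb_cup1 (A : X → X → ℤ) (w : List X → ℤ) (a b c : X) (l : List X) :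
    cb (cup1 A w) (a :: b :: c :: l)
      = (A b c - A a c + A a b) * w (c :: l) - A a b * cb w (b :: c :: l) := by
  have h1 : cb (fun m => cup1 A w (a :: b :: m)) (c :: l)
      = A a b * cb (fun m => w (b :: m)) (c :: l) := by
    rw [← cb_smul]
    rfl
  rw [cb_cons, cb_cons, h1, cb_cons w b]
  simp only [cup1]
  ring

theorem cb_cup2 (f : X → X → X → ℤ) (w : List X → ℤ) (a b c d : X) (l : List X) :
    cb (cup2 f w) (a :: b :: c :: d :: l)
      = (f b c d - f a c d + f a b d - f a b c) * w (d :: l) + f a b c * cb w (c :: d :: l) := by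
  have h1 : cb (fun m => cup2 f w (a :: b :: c :: m)) (d :: l)
      = f a b c * cb (fun m => w (c :: m)) (d :: l) := by
    rw [← cb_smul]
    rfl
  rw [cb_cons, cb_cons, cb_cons, h1, cb_cons w c]
  simp only [cup2]
  ring

/-- The cochain one of degree zero. -/
def one : List X → ℤ
  | [_] => 1
  | _ => 0

theorem cb_zero (l : List X) : cb (fun _ => (0 : ℤ)) l = 0 := by
  have := cb_smul 0 (fun _ => (0 : ℤ)) l
  simpa using this

theorem cb_one (l : List X) : cb (one : List X → ℤ) l = 0 := by
  match l with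
  | [] => exact cb_nil _
  | [a] =>
    rw [cb_cons, cb_nil]
    rfl
  | [a, b] =>
    rw [cb_cons, cb_cons, cb_nil]
    rfl
  | a :: b :: c :: l =>
    rw [cb_cons, cb_cons]
    have h : (fun m => one (a :: b :: m) : List X → ℤ) = fun _ => 0 := by
      funext m; rfl
    have h2 : (one (a :: c :: l) : ℤ) = 0 := rfl
    have h3 : (one (b :: c :: l) : ℤ) = 0 := rfl
    rw [h3, h2, h, cb_zero]
    ring

/-- The product of a list of 2-cochains. -/
def prodc : List (X → X → X → ℤ) → List X → ℤ
  | [] => one
  | c :: cs => cup2 c (prodc cs)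

/-- A truncated resolution of period two. -/
structure Res (T : X → X) (q n : ℕ) (e : ℕ → Ch X) : Prop where
  zero : bd (e 0) = single [] 1
  odd : ∀ i, i < n → bd (e (2 * i + 1)) = mp T (e (2 * i)) - e (2 * i)
  even : ∀ i, i < n → bd (e (2 * i + 2)) = ∑ t ∈ Finset.range q, mp (T^[t]) (e (2 * i + 1))
  len : ∀ j, j ≤ 2 * n → e j ∈ On {l : List X | l.length = j + 1}

variable {T : X → X} {q n : ℕ} {e : ℕ → Ch X}

theorem ev_iter {φ : List X → ℤ} (hφ : ∀ l, φ (l.map T) = φ l) (t : ℕ) (c : Ch X) :
    ev φ (mp (T^[t]) c) = ev φ c := by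
  rw [ev_mp]
  congr 1
  have : (fun l : List X => φ (l.map (T^[t]))) = φ := by
    funext l
    induction t with
    | zero => simp
    | succ t ih =>
      rw [Function.iterate_succ', ← List.map_map, hφ, ih]
  rw [this]

theorem cup1_inv {A : X → X → ℤ} {w : List X → ℤ} (hA : ∀ x y, A (T x) (T y) = A x y)
    (hw : ∀ l, w (l.map T) = w l) (l : List X) : cup1 A w (l.map T) = cup1 A w l := by
  match l with
  | [] => rfl
  | [_] => rfl
  | a :: b :: l =>
    simp only [List.map_cons, cup1, hA]
    rw [← List.map_cons, hw]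

theorem cup2_inv {A : X → X → X → ℤ} {w : List X → ℤ} (hA : ∀ x y z, A (T x) (T y) (T z) = A x y z)
    (hw : ∀ l, w (l.map T) = w l) (l : List X) : cup2 A w (l.map T) = cup2 A w l := by
  match l with
  | [] => rfl
  | [_] => rfl
  | [_, _] => rfl
  | a :: b :: c :: l =>
    simp only [List.map_cons, cup2, hA]
    rw [← List.map_cons, hw]

/-- A coboundary of an invariant cochain evaluates to a multiple of `q`. -/
theorem ev_cup_cb (he : Res T q n e) {A : X → X → ℤ} {w : List X → ℤ}
    (hA : ∀ x y, A (T x) (T y) = A x y) (hw : ∀ l, w (l.map T) = w l) (hcw : ∀ l, cb w l = 0)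
    (f : X → X → X → ℤ) (hf : ∀ x y z, f x y z = A y z - A x z + A x y) {i : ℕ} (hi : i < n) :
    ev (cup2 f w) (e (2 * i + 2)) = q * ev (cup1 A w) (e (2 * i + 1)) := by
  have h1 : ev (cup2 f w) (e (2 * i + 2)) = ev (cb (cup1 A w)) (e (2 * i + 2)) := by
    refine ev_congr ?_ (he.len (2 * i + 2) (by omega))
    intro l hl
    match l, hl with
    | a :: b :: c :: l, _ =>
      rw [cb_cup1, hcw]
      simp only [cup2, hf]
      ring
    | [], hl => simp at hl
    | [_], hl => simp at hl
    | [_, _], hl =>
      simp only [Set.mem_ofPred_eq, List.length_cons, List.length_nil] at hl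
      omega
  rw [h1, ← ev_bd, he.even i hi, map_sum]
  rw [Finset.sum_congr rfl fun t _ => ev_iter (cup1_inv hA hw) t (e (2 * i + 1))]
  simp

/-- The class `a` is the reduction of a function which increases by one modulo `q` under `T`. -/
structure Tau (T : X → X) (q : ℕ) (a : X → ℤ) (A : X → X → ℤ) (κ : X → X → ℤ)
    (x2 : X → X → X → ℤ) : Prop where
  step : ∀ x, (q : ℤ) ∣ a (T x) - a x - 1
  inv : ∀ x y, A (T x) (T y) = A x y
  red : ∀ x y, A x y = a y - a x + q * κ x y
  two : ∀ x y z, q * x2 x y z = A y z - A x z + A x y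

variable {a : X → ℤ} {A κ : X → X → ℤ} {x2 : X → X → X → ℤ}

theorem Tau.inv2 (h : Tau T q a A κ x2) (hq : 0 < q) (x y z : X) :
    x2 (T x) (T y) (T z) = x2 x y z := by
  have h1 := h.two (T x) (T y) (T z)
  rw [h.inv, h.inv, h.inv, ← h.two x y z] at h1
  exact mul_left_cancel₀ (by exact_mod_cast hq.ne') h1

theorem Tau.step2 (h : Tau T q a A κ x2) (hq : 0 < q) (he : Res T q n e) {w : List X → ℤ}
    (hw : ∀ l, w (l.map T) = w l) (hcw : ∀ l, cb w l = 0) {i : ℕ} (hi : i < n) :
    ev (cup2 x2 w) (e (2 * i + 2)) ≡ ev w (e (2 * i)) [ZMOD q] := by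
  have hq' : (q : ℤ) ≠ 0 := by exact_mod_cast hq.ne'
  have h1 : ev (cup2 x2 w) (e (2 * i + 2)) = ev (cup1 A w) (e (2 * i + 1)) := by
    have h2 := ev_cup_cb he h.inv hw hcw (fun x y z => q * x2 x y z) h.two hi
    have h3 : cup2 (fun x y z => q * x2 x y z) w = fun l => (q : ℤ) * cup2 x2 w l := by
      funext l
      match l with
      | [] => simp [cup2]
      | [_] => simp [cup2]
      | [_, _] => simp [cup2]
      | a :: b :: c :: l => simp only [cup2]; ring
    rw [h3, ev_smul_left] at h2
    exact mul_left_cancel₀ hq' h2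
  have h4 : ev (cup1 A w) (e (2 * i + 1)) = ev (cup1 (fun x y => a y - a x) w) (e (2 * i + 1))
      + q * ev (cup1 κ w) (e (2 * i + 1)) := by
    rw [← ev_smul_left, ← ev_add_left]
    congr 1
    have : cup1 A w = fun l => cup1 (fun x y => a y - a x) w l + (q : ℤ) * cup1 κ w l := by
      funext l
      match l with
      | [] => simp [cup1]
      | [_] => simp [cup1]
      | x :: y :: l => simp only [cup1, h.red]; ring
    rw [this]
  have h5 : ev (cup1 (fun x y => a y - a x) w) (e (2 * i + 1))
      = ev (cb (cup0 a w)) (e (2 * i + 1)) := by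
    refine ev_congr ?_ (he.len (2 * i + 1) (by omega))
    intro l hl
    match l, hl with
    | x :: y :: l, _ =>
      rw [cb_cup0, hcw]
      simp only [cup1]
      ring
    | [], hl => simp at hl
    | [_], hl =>
      simp only [Set.mem_ofPred_eq, List.length_cons, List.length_nil] at hl
      omega
  choose k hk using h.step
  have h6 : ev (cup0 a w) (mp T (e (2 * i)) - e (2 * i))
      = ev w (e (2 * i)) + q * ev (cup0 k w) (e (2 * i)) := by
    rw [map_sub, ev_mp, ← ev_smul_left, ← ev_add_left, sub_eq_iff_eq_add, ← ev_add_left]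
    refine ev_congr ?_ (he.len (2 * i) (by omega))
    intro l hl
    match l, hl with
    | x :: l, _ =>
      have h7 : w (T x :: l.map T) = w (x :: l) := hw (x :: l)
      simp only [List.map_cons, cup0, h7]
      linear_combination (w (x :: l)) * hk x
    | [], hl => simp at hl
  have h8 : ev (cup2 x2 w) (e (2 * i + 2)) = ev w (e (2 * i)) + q * (ev (cup0 k w) (e (2 * i))
      + ev (cup1 κ w) (e (2 * i + 1))) := by
    rw [h1, h4, h5, ← ev_bd, he.odd i hi, h6]
    ring
  rw [h8]
  exact Int.modEq_iff_dvd.2 ⟨-(ev (cup0 k w) (e (2 * i)) + ev (cup1 κ w) (e (2 * i + 1))), by ring⟩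

theorem prodc_cb {cs : List (X → X → X → ℤ)}
    (hc : ∀ f ∈ cs, ∀ a b c d, f b c d - f a c d + f a b d - f a b c = 0) (l : List X) :
    cb (prodc cs) l = 0 := by
  induction cs generalizing l with
  | nil => exact cb_one l
  | cons f cs ih =>
    have hf := hc f (by simp)
    have ih' := ih (fun g hg => hc g (by simp [hg]))
    match l with
    | [] => exact cb_nil _
    | [a] => rw [cb_cons, cb_nil]; rfl
    | [a, b] => rw [cb_cons, cb_cons, cb_nil]; rfl
    | [a, b, c] => rw [cb_cons, cb_cons, cb_cons, cb_nil]; rfl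
    | a :: b :: c :: d :: l =>
      rw [prodc, cb_cup2, ih', hf]
      ring

theorem prodc_inv {cs : List (X → X → X → ℤ)}
    (hc : ∀ f ∈ cs, ∀ a b c, f (T a) (T b) (T c) = f a b c) (l : List X) :
    prodc cs (l.map T) = prodc cs l := by
  induction cs generalizing l with
  | nil =>
    match l with
    | [] => rfl
    | [_] => rfl
    | _ :: _ :: _ => rfl
  | cons f cs ih =>
    exact cup2_inv (hc f (by simp)) (ih (fun g hg => hc g (by simp [hg]))) l

/-- **Evaluation.** Let `c` run through 2-cocycles which differ from `p` times the Bockstein class by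
coboundaries of invariant cochains. Their product takes the value `p ^ i` modulo `q`. -/
theorem ev_prodc (h : Tau T q a A κ x2) (hq : 0 < q) (he : Res T q n e) (p : ℤ)
    (cs : List (X → X → X → ℤ)) (hcs : cs.length ≤ n)
    (hc : ∀ f ∈ cs, ∃ B : X → X → ℤ, (∀ x y, B (T x) (T y) = B x y) ∧
      ∀ x y z, f x y z = p * x2 x y z + (B y z - B x z + B x y)) :
    ev (prodc cs) (e (2 * cs.length)) ≡ p ^ cs.length [ZMOD q] := by
  have hq' : (q : ℤ) ≠ 0 := by exact_mod_cast hq.ne'
  have hcoc : ∀ f ∈ cs, ∀ a b c d, f b c d - f a c d + f a b d - f a b c = 0 := by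
    intro f hf a b c d
    obtain ⟨B, _, hB⟩ := hc f hf
    have e1 : x2 b c d - x2 a c d + x2 a b d - x2 a b c = 0 := by
      apply mul_left_cancel₀ hq'
      linear_combination h.two b c d - h.two a c d + h.two a b d - h.two a b c
    simp only [hB]
    linear_combination p * e1
  have hinv : ∀ f ∈ cs, ∀ a b c, f (T a) (T b) (T c) = f a b c := by
    intro f hf a b c
    obtain ⟨B, hB1, hB⟩ := hc f hf
    rw [hB, hB, h.inv2 hq, hB1, hB1, hB1]
  induction cs with
  | nil =>
    have h1 : ev (one : List X → ℤ) (e 0) = 1 := by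
      have h2 : (one : List X → ℤ) = cb (fun l => match l with | [] => 1 | _ => 0) := by
        funext l
        match l with
        | [] => rw [cb_nil]; rfl
        | [a] => rw [cb_cons, cb_nil]; rfl
        | a :: b :: l =>
          rw [cb_cons]
          have : (fun m => (fun l : List X => match l with | [] => (1 : ℤ) | _ => 0) (a :: m))
              = fun _ => 0 := by funext m; rfl
          rw [this, cb_zero]
          rfl
      rw [h2, ← ev_bd, he.zero, ev_single]
      rfl
    have : ev (prodc ([] : List (X → X → X → ℤ))) (e (2 * ([] : List (X → X → X → ℤ)).length)) = 1 :=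
      h1
    rw [this]
    simp
  | cons f cs ih =>
    have hcs' : cs.length < n := by simpa using hcs
    have ih' := ih hcs'.le (fun g hg => hc g (by simp [hg])) (fun g hg => hcoc g (by simp [hg]))
      (fun g hg => hinv g (by simp [hg]))
    obtain ⟨B, hB1, hB⟩ := hc f (by simp)
    have hw : ∀ l : List X, prodc cs (l.map T) = prodc cs l :=
      prodc_inv (fun g hg => hinv g (by simp [hg]))
    have hcw : ∀ l : List X, cb (prodc cs) l = 0 := prodc_cb (fun g hg => hcoc g (by simp [hg]))
    have e1 : prodc (f :: cs) = fun l => p * cup2 x2 (prodc cs) l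
        + cup2 (fun x y z => B y z - B x z + B x y) (prodc cs) l := by
      funext l
      match l with
      | [] => simp [prodc, cup2]
      | [_] => simp [prodc, cup2]
      | [_, _] => simp [prodc, cup2]
      | a :: b :: c :: l => simp only [prodc, cup2, hB]; ring
    have e2 : 2 * (f :: cs).length = 2 * cs.length + 2 := by simp; ring
    rw [e2, e1, ev_add_left, ev_smul_left,
      ev_cup_cb he hB1 hw hcw (fun x y z => B y z - B x z + B x y) (fun _ _ _ => rfl) hcs']
    have e3 := h.step2 hq he hw hcw hcs'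
    have e4 : p * ev (cup2 x2 (prodc cs)) (e (2 * cs.length + 2)) ≡ p * p ^ cs.length [ZMOD q] :=
      (e3.trans ih').mul_left p
    have e5 : (q : ℤ) * ev (cup1 B (prodc cs)) (e (2 * cs.length + 1)) ≡ 0 [ZMOD q] :=
      Int.modEq_zero_iff_dvd.2 ⟨_, rfl⟩
    have e6 := e4.add e5
    rw [add_zero] at e6
    rw [List.length_cons, pow_succ, mul_comm (p ^ cs.length) p]
    exact e6

end Pool.Agent.H92.Lens
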