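import Pool.Agent.H92.Lens.Cup

/-!
Small chains, filling of small cycles in contractible sets, construction of a truncated periodic
resolution by small chains.
-/

set_option autoImplicit false

namespace Pool.Agent.H92.Lens

open Finsupp Set

variable {X : Type} [PseudoMetricSpace X]

/-- Lists of `n` points of `E` with mutual distances less than `ε`. -/
def Sm (E : Set X) (ε : ℝ) (n : ℕ) : Set (List X) :=
  {l | l.length = n ∧ (∀ x ∈ l, x ∈ E) ∧ ∀ x ∈ l, ∀ y ∈ l, dist x y < ε}

/-- `E` is contractible, by a uniformly continuous contraction. -/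
def Contr (E : Set X) : Prop :=
  ∃ v ∈ E, ∃ H : ℝ → X → X, (∀ t ∈ Icc (0 : ℝ) 1, ∀ x ∈ E, H t x ∈ E) ∧ (∀ x ∈ E, H 0 x = x) ∧
    (∀ x ∈ E, H 1 x = v) ∧ ∀ ε > 0, ∃ δ > 0, ∀ s ∈ Icc (0 : ℝ) 1, ∀ t ∈ Icc (0 : ℝ) 1,
      ∀ x ∈ E, ∀ y ∈ E, |s - t| < δ → dist x y < δ → dist (H s x) (H t y) < ε

theorem prL_mem {Y : Type} (f g : X → Y) (l : List X) :
    prL f g l ∈ On {l' : List Y | l'.length = l.length + 1 ∧ ∀ x ∈ l', ∃ y ∈ l, x = f y ∨ x = g y} := by
  induction l with
  | nil => simp [prL]
  | cons a l ih =>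
    rw [prL]
    refine Submodule.sub_mem _ ?_ ?_
    · apply single_mem
      refine ⟨by simp, ?_⟩
      intro x hx
      simp only [List.mem_cons, List.mem_map] at hx
      rcases hx with rfl | rfl | ⟨y, hy, rfl⟩
      · exact ⟨a, by simp, Or.inl rfl⟩
      · exact ⟨a, by simp, Or.inr rfl⟩
      · exact ⟨y, by simp [hy], Or.inr rfl⟩
    · refine map_mem (cone (f a)) ?_ ih
      rintro l' ⟨h1, h2⟩
      rw [cone_single]
      apply single_mem
      refine ⟨by simp [h1], ?_⟩
      intro x hx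
      rcases List.mem_cons.1 hx with rfl | hx
      · exact ⟨a, by simp, Or.inl rfl⟩
      · obtain ⟨y, hy, h⟩ := h2 x hx
        exact ⟨y, by simp [hy], h⟩

theorem mp_eq_self {s : Set (List X)} {f : X → X} (h : ∀ l ∈ s, l.map f = l) {c : Ch X}
    (hc : c ∈ On s) : mp f c = c := by
  have h1 : On s ≤ LinearMap.eqLocus (mp f) LinearMap.id := by
    rw [On, Finsupp.supported_eq_span_single, Submodule.span_le]
    rintro _ ⟨l, hl, rfl⟩
    simp only [SetLike.mem_coe, LinearMap.mem_eqLocus, mp_single, LinearMap.id_coe, id_eq]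
    rw [h l hl]
  exact h1 hc

/-- Small cycles bound. -/
theorem fill {E : Set X} (hE : Contr E) {ε : ℝ} (hε : 0 < ε) :
    ∃ δ > 0, δ ≤ ε ∧ ∀ (n : ℕ) (z : Ch X), z ∈ On (Sm E δ n) → bd z = 0 →
      ∃ c ∈ On (Sm E ε (n + 1)), bd c = z := by
  obtain ⟨v, hv, H, hH, h0, h1, hu⟩ := hE
  obtain ⟨δ, hδ, hu⟩ := hu ε hε
  obtain ⟨M, hM⟩ := exists_nat_one_div_lt hδ
  refine ⟨min δ ε, lt_min hδ hε, min_le_right _ _, ?_⟩
  intro n z hz hbz
  set f : ℕ → X → X := fun i => H (i / (M + 1 : ℝ)) with hf
  have hM1 : (0 : ℝ) < M + 1 := by positivity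
  have hI : ∀ i : ℕ, i ≤ M + 1 → (i / (M + 1 : ℝ)) ∈ Icc (0 : ℝ) 1 := by
    intro i hi
    refine ⟨by positivity, ?_⟩
    rw [div_le_one hM1]
    exact_mod_cast hi
  have hf0 : ∀ x ∈ E, f 0 x = x := by
    intro x hx
    simp only [hf, Nat.cast_zero, zero_div]
    exact h0 x hx
  have hf1 : ∀ x ∈ E, f (M + 1) x = v := by
    intro x hx
    have : ((M + 1 : ℕ) : ℝ) / (M + 1 : ℝ) = 1 := by
      push_cast
      exact div_self hM1.ne'
    simp only [hf, this]
    exact h1 x hx
  refine ⟨cone v (mp (f (M + 1)) z) - ∑ i ∈ Finset.range (M + 1), pr (f i) (f (i + 1)) z, ?_, ?_⟩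
  · refine Submodule.sub_mem _ ?_ (Submodule.sum_mem _ ?_)
    · refine map_mem ((cone v).comp (mp (f (M + 1)))) ?_ hz
      rintro l ⟨hl1, hl2, hl3⟩
      simp only [LinearMap.comp_apply, mp_single, cone_single]
      apply single_mem
      have hall : ∀ x ∈ v :: l.map (f (M + 1)), x = v := by
        intro x hx
        rcases List.mem_cons.1 hx with rfl | hx
        · rfl
        · obtain ⟨y, hy, rfl⟩ := List.mem_map.1 hx
          exact hf1 y (hl2 y hy)
      refine ⟨by simp [hl1], ?_, ?_⟩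
      · intro x hx
        rw [hall x hx]; exact hv
      · intro x hx y hy
        rw [hall x hx, hall y hy, dist_self]; exact hε
    · intro i hi
      have hi' : i < M + 1 := Finset.mem_range.1 hi
      refine map_mem (pr (f i) (f (i + 1))) ?_ hz
      rintro l ⟨hl1, hl2, hl3⟩
      rw [pr_single, one_smul]
      refine on_mono ?_ (prL_mem (f i) (f (i + 1)) l)
      rintro l' ⟨h2, h3⟩
      have key : ∀ x ∈ l', ∃ y ∈ l, ∃ j, (j = i ∨ j = i + 1) ∧ x = f j y := by
        intro x hx
        obtain ⟨y, hy, h | h⟩ := h3 x hx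
        · exact ⟨y, hy, i, Or.inl rfl, h⟩
        · exact ⟨y, hy, i + 1, Or.inr rfl, h⟩
      refine ⟨by rw [h2, hl1], ?_, ?_⟩
      · intro x hx
        obtain ⟨y, hy, j, hj, rfl⟩ := key x hx
        exact hH _ (hI j (by omega)) y (hl2 y hy)
      · intro x hx x' hx'
        obtain ⟨y, hy, j, hj, rfl⟩ := key x hx
        obtain ⟨y', hy', j', hj', rfl⟩ := key x' hx'
        refine hu _ (hI j (by omega)) _ (hI j' (by omega)) y (hl2 y hy) y' (hl2 y' hy') ?_
          ((hl3 y hy y' hy').trans_le (min_le_left _ _))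
        rw [← sub_div, abs_div, abs_of_pos hM1]
        refine lt_of_le_of_lt ?_ hM
        gcongr
        rcases hj with rfl | rfl <;> rcases hj' with rfl | rfl <;> simp
  · rw [map_sub, bd_cone, bd_mp, hbz, map_zero, map_zero, sub_zero, map_sum]
    have h2 : ∀ i ∈ Finset.range (M + 1), bd (pr (f i) (f (i + 1)) z)
        = mp (f (i + 1)) z - mp (f i) z := by
      intro i _
      rw [bd_pr, hbz, map_zero, sub_zero]
    rw [Finset.sum_congr rfl h2, Finset.sum_range_sub (fun i => mp (f i) z)]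
    have h3 : mp (f 0) z = z := by
      refine mp_eq_self ?_ hz
      rintro l ⟨_, hl2, _⟩
      conv_rhs => rw [← List.map_id l]
      exact List.map_congr_left fun x hx => hf0 x (hl2 x hx)
    rw [h3]
    abel

/-- The operators `T - 1` and `1 + T + ⋯ + T ^ (q - 1)`. -/
noncomputable def op (T : X → X) (q i : ℕ) : Ch X →ₗ[ℤ] Ch X :=
  if Even i then mp T - LinearMap.id else ∑ t ∈ Finset.range q, mp (T^[t])

theorem mp_mp {Y Z : Type} (f : X → Y) (g : Y → Z) (c : Ch X) : mp g (mp f c) = mp (g ∘ f) c := by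
  induction c using Finsupp.induction_linear with
  | zero => simp
  | add f g hf hg => simp only [map_add, hf, hg]
  | single l a => simp only [mp_single, List.map_map]

theorem bd_op (T : X → X) (q i : ℕ) (c : Ch X) : bd (op T q i c) = op T q i (bd c) := by
  unfold op
  split_ifs
  · simp only [LinearMap.sub_apply, LinearMap.id_coe, id_eq, map_sub, bd_mp]
  · simp only [LinearMap.sum_apply, map_sum, bd_mp]

theorem mp_id (c : Ch X) : mp (id : X → X) c = c := by
  induction c using Finsupp.induction_linear with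
  | zero => simp
  | add f g hf hg => simp only [map_add, hf, hg]
  | single l a => simp only [mp_single, List.map_id]

theorem op_op {T : X → X} {q : ℕ} (hT : T^[q] = id) (i : ℕ) (c : Ch X) :
    op T q (i + 1) (op T q i c) = 0 := by
  have h1 : ∀ c : Ch X, ∑ t ∈ Finset.range q, (mp (T^[t + 1]) c - mp (T^[t]) c) = 0 := by
    intro c
    rw [Finset.sum_range_sub (fun t => mp (T^[t]) c), hT]
    simp [mp_id]
  unfold op
  by_cases hi : Even i
  · rw [if_pos hi, if_neg (by simpa [Nat.even_add_one] using hi)]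
    have h2 : ∀ t : ℕ, mp (T^[t]) (mp T c) = mp (T^[t + 1]) c := by
      intro t
      rw [mp_mp, Function.iterate_succ]
    simp only [LinearMap.sum_apply, LinearMap.sub_apply, LinearMap.id_coe, id_eq, map_sub, h2]
    simpa only [Finset.sum_sub_distrib] using h1 c
  · rw [if_neg hi, if_pos (by simpa [Nat.even_add_one] using hi)]
    have h2 : ∀ t : ℕ, mp T (mp (T^[t]) c) = mp (T^[t + 1]) c := by
      intro t
      rw [mp_mp, Function.iterate_succ']
    simp only [LinearMap.sum_apply, LinearMap.sub_apply, LinearMap.id_coe, id_eq, map_sum, h2]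
    simpa only [Finset.sum_sub_distrib] using h1 c

/-- Construction of the small resolution. -/
theorem exists_res {T : X → X} {q : ℕ} (hT : T^[q] = id) (hiso : ∀ x y, dist (T x) (T y) = dist x y)
    (E : ℕ → Set X) (k : ℕ) (hE : ∀ j, j ≤ k → Contr (E j)) (hsub : ∀ j, j < k → E j ⊆ E (j + 1))
    (hTE : ∀ j, j < k → ∀ x ∈ E j, T x ∈ E (j + 1))
    (hTE' : ∀ j, j < k → ¬ Even j → ∀ t, ∀ x ∈ E j, T^[t] x ∈ E (j + 1)) :
    ∀ j, j ≤ k → ∀ ε > 0, ∃ e : ℕ → Ch X, bd (e 0) = single [] 1 ∧
      (∀ i, i < j → bd (e (i + 1)) = op T q i (e i)) ∧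
      ∀ i, i ≤ j → e i ∈ On (Sm (E i) ε (i + 1)) := by
  intro j
  induction j with
  | zero =>
    intro _ ε hε
    obtain ⟨v, hv, _⟩ := hE 0 (by omega)
    refine ⟨fun _ => single [v] 1, ?_, by intro i hi; omega, ?_⟩
    · rw [bd_single, one_smul, bdL, bdL, map_zero, sub_zero]
    · intro i hi
      obtain rfl : i = 0 := by omega
      apply single_mem
      refine ⟨by simp, ?_, ?_⟩
      · intro x hx
        rw [List.mem_singleton.1 hx]; exact hv
      · intro x hx y hy
        rw [List.mem_singleton.1 hx, List.mem_singleton.1 hy, dist_self]; exact hε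
  | succ j ih =>
    intro hj ε hε
    obtain ⟨δ, hδ, hδε, hfill⟩ := fill (hE (j + 1) hj) hε
    obtain ⟨e, he0, he1, he2⟩ := ih (by omega) δ hδ
    have hiso' : ∀ (t : ℕ) (x y : X), dist (T^[t] x) (T^[t] y) = dist x y := by
      intro t
      induction t with
      | zero => intro x y; rfl
      | succ t ih => intro x y; rw [Function.iterate_succ_apply', Function.iterate_succ_apply', hiso, ih]
    have hz : op T q j (e j) ∈ On (Sm (E (j + 1)) δ (j + 1)) := by
      unfold op
      split_ifs with hev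
      · rw [LinearMap.sub_apply]
        refine Submodule.sub_mem _ ?_ ?_
        · refine map_mem (mp T) ?_ (he2 j le_rfl)
          rintro l ⟨h1, h2, h3⟩
          rw [mp_single]
          apply single_mem
          refine ⟨by simp [h1], ?_, ?_⟩
          · intro x hx
            obtain ⟨y, hy, rfl⟩ := List.mem_map.1 hx
            exact hTE j (by omega) y (h2 y hy)
          · intro x hx x' hx'
            obtain ⟨y, hy, rfl⟩ := List.mem_map.1 hx
            obtain ⟨y', hy', rfl⟩ := List.mem_map.1 hx'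
            rw [hiso]
            exact h3 y hy y' hy'
        · refine on_mono ?_ (he2 j le_rfl)
          rintro l ⟨h1, h2, h3⟩
          exact ⟨h1, fun x hx => hsub j (by omega) (h2 x hx), h3⟩
      · rw [LinearMap.sum_apply]
        refine Submodule.sum_mem _ fun t _ => ?_
        refine map_mem (mp (T^[t])) ?_ (he2 j le_rfl)
        rintro l ⟨h1, h2, h3⟩
        rw [mp_single]
        apply single_mem
        refine ⟨by simp [h1], ?_, ?_⟩
        · intro x hx
          obtain ⟨y, hy, rfl⟩ := List.mem_map.1 hx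
          exact hTE' j (by omega) hev t y (h2 y hy)
        · intro x hx x' hx'
          obtain ⟨y, hy, rfl⟩ := List.mem_map.1 hx
          obtain ⟨y', hy', rfl⟩ := List.mem_map.1 hx'
          rw [hiso']
          exact h3 y hy y' hy'
    have hbz : bd (op T q j (e j)) = 0 := by
      rw [bd_op]
      rcases Nat.eq_zero_or_pos j with rfl | hj0
      · rw [he0]
        unfold op
        rw [if_pos (by decide), LinearMap.sub_apply, mp_single]
        simp
      · obtain ⟨i, rfl⟩ := Nat.exists_eq_add_of_le' hj0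
        rw [he1 i (by omega)]
        exact op_op hT i _
    obtain ⟨c, hc, hbc⟩ := hfill (j + 1) _ hz hbz
    refine ⟨fun i => if i = j + 1 then c else e i, ?_, ?_, ?_⟩
    · simpa using he0
    · intro i hi
      by_cases h : i = j
      · subst h
        simpa using hbc
      · have h3 : i + 1 ≠ j + 1 := by omega
        have h4 : i ≠ j + 1 := by omega
        simp only [if_neg h3, if_neg h4]
        exact he1 i (by omega)
    · intro i hi
      by_cases h : i = j + 1
      · subst h
        simpa using hc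
      · simp only [if_neg h]
        refine on_mono ?_ (he2 i (by omega))
        rintro l ⟨h1, h2, h3⟩
        exact ⟨h1, h2, fun x hx y hy => (h3 x hx y hy).trans_le hδε⟩

theorem exists_res' {T : X → X} {q : ℕ} (hT : T^[q] = id)
    (hiso : ∀ x y, dist (T x) (T y) = dist x y)
    (E : ℕ → Set X) (n : ℕ) (hE : ∀ j, j ≤ 2 * n → Contr (E j))
    (hsub : ∀ j, j < 2 * n → E j ⊆ E (j + 1))
    (hTE : ∀ j, j < 2 * n → ∀ x ∈ E j, T x ∈ E (j + 1))
    (hTE' : ∀ j, j < 2 * n → ¬ Even j → ∀ t, ∀ x ∈ E j, T^[t] x ∈ E (j + 1)) {ε : ℝ} (hε : 0 < ε) :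
    ∃ e : ℕ → Ch X, Res T q n e ∧ ∀ i, i ≤ 2 * n → e i ∈ On (Sm (E i) ε (i + 1)) := by
  obtain ⟨e, h0, h1, h2⟩ := exists_res hT hiso E (2 * n) hE hsub hTE hTE' (2 * n) le_rfl ε hε
  refine ⟨e, ⟨h0, ?_, ?_, ?_⟩, h2⟩
  · intro i hi
    rw [h1 (2 * i) (by omega), op, if_pos (by simp)]
    rfl
  · intro i hi
    rw [h1 (2 * i + 1) (by omega), op, if_neg (by simp)]
    simp
  · intro j hj
    refine on_mono ?_ (h2 j hj)
    rintro l ⟨h3, _⟩
    exact h3

end Pool.Agent.H92.Lens
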