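import Pool.Agent.H92.Lens.Quo

/-!
Bounds for the Schwarz genus of the circle bundles over lens spaces.
-/

set_option autoImplicit false

namespace Pool.Agent.H92.Lens

open Set Real

variable {m p k : ℕ}

/-- The generator acting on the product of the lens space and the circle. -/
noncomputable abbrev gW (m p k : ℕ) (a : LensSpace m p × Circle) : LensSpace m p × Circle :=
  (LensSpace.rot (ζ (p ^ (k + 1))) a.1, ζ (p ^ k) * a.2)

theorem gW_iterate (j : ℕ) (x : Sph m) (c : Circle) :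
    (gW m p k)^[j] (Quot.mk _ x, c)
      = (Quot.mk _ (Sph.rot (ζ (p ^ (k + 1)) ^ j) x), ζ (p ^ k) ^ j * c) := by
  induction j with
  | zero => simp [Sph.rot_one]
  | succ j ih =>
    rw [Function.iterate_succ_apply', ih]
    refine Prod.ext ?_ ?_
    · show (Quot.mk _ (Sph.rot _ (Sph.rot _ x)) : LensSpace m p) = _
      rw [Sph.rot_rot, pow_succ' (ζ (p ^ (k + 1)))]
    · show ζ (p ^ k) * (ζ (p ^ k) ^ j * c) = _
      rw [← mul_assoc, ← pow_succ']

theorem ζ_pow_k (hp : 0 < p) : ζ (p ^ k) ^ (p ^ (k + 1)) = 1 := by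
  rw [pow_succ, pow_mul, ζ_pow_self (Nat.pow_pos hp), one_pow]

theorem gW_order (hp : 0 < p) : (gW m p k)^[p ^ (k + 1)] = id := by
  funext ⟨x, c⟩
  induction x using Quot.ind with
  | mk x =>
    rw [gW_iterate, ζ_pow_self (Nat.pow_pos hp), Sph.rot_one, ζ_pow_k hp, one_mul]
    rfl

theorem rot_order (hp : 0 < p) : (Sph.rot (ζ p) : Sph m → Sph m)^[p] = id := by
  funext x
  rw [Sph.rot_iterate, ζ_pow_self hp, Sph.rot_one]
  rfl

theorem LensSpace.t2 (hp : 0 < p) : T2Space (LensSpace m p) :=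
  Orb.t2 hp (rot_order hp) (Sph.continuous_rot _)

theorem LensSpace.continuous_rot (z : Circle) :
    Continuous (LensSpace.rot z : LensSpace m p → LensSpace m p) :=
  continuous_quot_lift _ (continuous_quot_mk.comp (Sph.continuous_rot z))

theorem continuous_gW : Continuous (gW m p k) :=
  ((LensSpace.continuous_rot _).comp continuous_fst).prodMk
    (continuous_const.mul continuous_snd)

theorem W.t2 (hp : 0 < p) : T2Space (W m p k) := by
  have := LensSpace.t2 (m := m) hp
  exact Orb.t2 (Nat.pow_pos hp) (gW_order hp) continuous_gW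

/-- The point of the total space over the class of `x` with second coordinate `c`. -/
def pt (m p k : ℕ) (x : Sph m) (c : Circle) : W m p k := Quot.mk _ (Quot.mk _ x, c)

theorem continuous_pt : Continuous fun z : Sph m × Circle => pt m p k z.1 z.2 :=
  continuous_quot_mk.comp ((continuous_quot_mk.comp continuous_fst).prodMk continuous_snd)

theorem pt_rot (x : Sph m) (c : Circle) :
    pt m p k (Sph.rot (ζ (p ^ (k + 1))) x) (ζ (p ^ k) * c) = pt m p k x c :=
  (Quot.sound (r := fun a b => b = gW m p k a) (a := (Quot.mk _ x, c)) rfl).symm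

theorem pt_iterate (j : ℕ) (x : Sph m) (c : Circle) :
    pt m p k ((Sph.rot (ζ (p ^ (k + 1))))^[j] x) (ζ (p ^ k) ^ j * c) = pt m p k x c := by
  rw [Sph.rot_iterate]
  have h := Orb.mk_iterate (gW m p k) j (Quot.mk _ x, c)
  rw [gW_iterate] at h
  exact h

theorem proj_pt (x : Sph m) (c : Circle) : proj m p k (pt m p k x c) = Quot.mk _ x := rfl

theorem exists_pt (hp : 0 < p) (w : W m p k) (x : Sph m) (h : proj m p k w = Quot.mk _ x) :
    ∃ c, w = pt m p k x c := by
  induction w using Quot.ind with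
  | mk w =>
    obtain ⟨y, c⟩ := w
    induction y using Quot.ind with
    | mk y =>
      have h1 : (Quot.mk _ y : LensSpace m (p ^ (k + 1))) = Quot.mk _ x := h
      obtain ⟨j, -, rfl⟩ := (Orb.mk_eq (Nat.pow_pos hp) (rot_order (Nat.pow_pos hp))).1 h1
      exact ⟨_, (pt_iterate j y c).symm⟩

theorem Sph.rot_inj {z w : Circle} {x : Sph m} (h : Sph.rot z x = Sph.rot w x) : z = w := by
  have h1 : Sph.rot (w⁻¹ * z) x = x := by
    rw [← Sph.rot_rot, h, Sph.rot_rot, inv_mul_cancel, Sph.rot_one]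
  have h2 := Sph.rot_free h1
  exact (inv_mul_eq_one.1 h2).symm

theorem pt_inj (hp : 0 < p) {x : Sph m} {c d : Circle} (h : pt m p k x c = pt m p k x d) :
    c = d := by
  obtain ⟨j, -, h1⟩ := (Orb.mk_eq (Nat.pow_pos hp) (gW_order hp)).1 h
  rw [gW_iterate, Prod.mk.injEq] at h1
  obtain ⟨h2, h3⟩ := h1
  obtain ⟨i, -, h4⟩ := (Orb.mk_eq hp (rot_order hp)).1 h2
  rw [Sph.rot_iterate] at h4
  have h5 := Sph.rot_inj h4
  have h6 : ζ (p ^ (k + 1)) ^ (j * p) = 1 := by
    rw [pow_mul, h5, ← pow_mul, mul_comm i p, pow_mul, ζ_pow_self hp, one_pow]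
  have h7 := dvd_of_ζ_pow (Nat.pow_pos hp) h6
  have h8 : p ^ k ∣ j := by
    rw [pow_succ] at h7
    exact Nat.dvd_of_mul_dvd_mul_right hp h7
  obtain ⟨l, rfl⟩ := h8
  rw [pow_mul, ζ_pow_self (Nat.pow_pos hp), one_pow, one_mul] at h3
  exact h3.symm

/-- The divisibility coming from a cover. -/
theorem dvd_of_hasCover (hp : 2 ≤ p) {n : ℕ} (h : HasCover (proj m p k) n) (hn : n < m) :
    p ^ (k + 1) ∣ p ^ n := by
  have hp0 : 0 < p := by omega
  obtain ⟨A, hA, hcov, hs⟩ := h
  choose s hsc hsp using hs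
  classical
  set π' : Sph m → LensSpace m (p ^ (k + 1)) := fun x => Quot.mk _ x with hπ'
  have hπT : ∀ x, π' (Sph.rot (ζ (p ^ (k + 1))) x) = π' x := fun x =>
    (Quot.sound (r := fun a b : Sph m => b = Sph.rot (ζ (p ^ (k + 1))) a) rfl).symm
  have hex : ∀ i, ∀ x, ∀ hx : π' x ∈ A i, ∃ c, s i ⟨π' x, hx⟩ = pt m p k x c := fun i x hx =>
    exists_pt hp0 _ x (hsp i _)
  set σ : Fin n → Sph m → Circle := fun i x => if hx : π' x ∈ A i then (hex i x hx).choose else 1
    with hσ
  have hσ1 : ∀ i x (hx : π' x ∈ A i), s i ⟨π' x, hx⟩ = pt m p k x (σ i x) := by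
    intro i x hx
    have h1 := (hex i x hx).choose_spec
    rw [hσ]
    simp only []
    rw [dif_pos hx]
    exact h1
  have hq : p ^ (k + 1) = p * p ^ k := pow_succ' p k
  have hT2 := W.t2 (m := m) (k := k) hp0
  have hcont : ∀ i, ContinuousOn (σ i) (π' ⁻¹' A i) := by
    intro i
    rw [continuousOn_iff_continuous_domRestrict]
    have hgr : IsClosed {z : (π' ⁻¹' A i : Set (Sph m)) × Circle | z.2 = σ i z.1} := by
      have h1 : {z : (π' ⁻¹' A i : Set (Sph m)) × Circle | z.2 = σ i z.1}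
          = {z | s i ⟨π' z.1, z.1.2⟩ = pt m p k z.1 z.2} := by
        ext z
        simp only [mem_ofPred_eq]
        rw [hσ1 i z.1 z.1.2]
        constructor
        · intro h; rw [h]
        · intro h; exact (pt_inj hp0 h).symm
      rw [h1]
      refine isClosed_eq ?_ ?_
      · refine (hsc i).comp (Continuous.subtype_mk ?_ _)
        exact continuous_quot_mk.comp (continuous_subtype_val.comp continuous_fst)
      · exact continuous_pt.comp ((continuous_subtype_val.comp continuous_fst).prodMk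
          continuous_snd)
    rw [continuous_iff_isClosed]
    intro C hC
    have h2 : ((π' ⁻¹' A i).domRestrict (σ i)) ⁻¹' C
        = Prod.fst '' ({z : (π' ⁻¹' A i : Set (Sph m)) × Circle | z.2 = σ i z.1}
          ∩ (Prod.snd ⁻¹' C)) := by
      ext z
      constructor
      · intro hz
        exact ⟨(z, σ i z), ⟨rfl, hz⟩, rfl⟩
      · rintro ⟨⟨z, c⟩, ⟨h3, h4⟩, rfl⟩
        have h5 : c = σ i z := h3
        have h6 : c ∈ C := h4
        show σ i z ∈ C
        rw [← h5]; exact h6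
    rw [h2]
    exact isClosedMap_fst_of_compactSpace _ (hgr.inter (hC.preimage continuous_snd))
  have hσT : ∀ i, ∀ x ∈ π' ⁻¹' A i, σ i (Sph.rot (ζ (p ^ (k + 1))) x)
      = Circle.exp (2 * π / (p ^ k : ℕ)) * σ i x := by
    intro i x hx
    have hx' : π' (Sph.rot (ζ (p ^ (k + 1))) x) ∈ A i := by rw [hπT]; exact hx
    have h1 : s i ⟨π' (Sph.rot (ζ (p ^ (k + 1))) x), hx'⟩ = s i ⟨π' x, hx⟩ := by
      congr 1
      exact Subtype.ext (hπT x)
    rw [hσ1, hσ1, ← pt_rot x] at h1
    exact pt_inj hp0 h1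
  have key := dvd_of_cover (X := Sph m) (T := Sph.rot (ζ (p ^ (k + 1)))) (p := p) (r := p ^ k)
    (n := n) hp0 (Nat.pow_pos hp0) (by rw [← hq]; exact rot_order (Nat.pow_pos hp0))
    (by
      intro x j hj
      rw [Sph.rot_iterate] at hj
      rw [← hq]
      exact dvd_of_ζ_pow (Nat.pow_pos hp0) (Sph.rot_free hj))
    (by
      intro ε hε
      rw [← hq]
      refine small_res ?_ hn hε
      calc 2 ≤ p := hp
        _ = p ^ 1 := (pow_one p).symm
        _ ≤ p ^ (k + 1) := Nat.pow_le_pow_right hp0 (by omega))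
    (fun i => π' ⁻¹' A i) (fun i => (hA i).preimage continuous_quot_mk)
    (fun x => hcov (π' x)) (fun i x => by
      simp only [mem_preimage]
      rw [hπT]) σ hcont hσT
  rw [← hq] at key
  exact_mod_cast key

theorem le_of_hasCover (hp : 2 ≤ p) {n : ℕ} (h : HasCover (proj m p k) n) : min m (k + 1) ≤ n := by
  by_contra hlt
  rw [not_le, lt_min_iff] at hlt
  have h1 := dvd_of_hasCover hp h hlt.1
  have h2 := (Nat.pow_dvd_pow_iff_le_right (by omega)).1 h1
  omega

theorem le_genus (hp : 2 ≤ p) : (min m (k + 1) : ℕ) ≤ schwarzGenus (proj m p k) := by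
  unfold schwarzGenus
  refine le_iInf fun n => le_iInf fun h => ?_
  exact_mod_cast le_of_hasCover hp h.2

/-- The direction of a complex number. -/
noncomputable def dirn (z : ℂ) : Circle := Circle.exp (Complex.arg z)

theorem dirn_coe {z : ℂ} (h : z ≠ 0) : (dirn z : ℂ) = z / ‖z‖ := by
  have h1 : (‖z‖ : ℂ) ≠ 0 := by exact_mod_cast norm_ne_zero_iff.2 h
  rw [dirn, Circle.coe_exp, eq_div_iff h1, mul_comm, Complex.norm_mul_exp_arg_mul_I]

theorem dirn_mul (w : Circle) {z : ℂ} (h : z ≠ 0) : dirn (w * z) = w * dirn z := by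
  apply Circle.ext
  rw [dirn_coe (mul_ne_zero (Circle.coe_ne_zero w) h), Circle.coe_mul, dirn_coe h, norm_mul,
    Circle.norm_coe, one_mul, mul_div_assoc]

theorem continuousOn_dirn : ContinuousOn dirn {z : ℂ | z ≠ 0} := by
  have hI : Topology.IsInducing (fun z : Circle => (z : ℂ)) := ⟨rfl⟩
  rw [hI.continuousOn_iff]
  have h : ContinuousOn (fun z : ℂ => z / (‖z‖ : ℂ)) {z : ℂ | z ≠ 0} := by
    refine ContinuousOn.div continuousOn_id ?_ ?_
    · fun_prop
    · intro z hz
      exact_mod_cast norm_ne_zero_iff.2 hz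
  refine h.congr ?_
  intro z hz
  exact dirn_coe hz

/-- The coordinate charts give a cover by `m` open sets. -/
theorem hasCover_self (hp : 0 < p) : HasCover (proj m p k) m := by
  classical
  set π' : Sph m → LensSpace m (p ^ (k + 1)) := fun x => Quot.mk _ x with hπ'
  have hoq : IsOpenQuotientMap π' := Orb.isOpenQuotientMap (Nat.pow_pos hp)
    (rot_order (Nat.pow_pos hp)) (Sph.continuous_rot _)
  have hne : ∀ (j : Fin m) (x y : Sph m), π' x = π' y →
      (x : EuclideanSpace ℂ (Fin m)) j ≠ 0 → (y : EuclideanSpace ℂ (Fin m)) j ≠ 0 ∧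
        pt m p k x (dirn ((x : EuclideanSpace ℂ (Fin m)) j) ^ p)
          = pt m p k y (dirn ((y : EuclideanSpace ℂ (Fin m)) j) ^ p) := by
    intro j x y hxy hx
    obtain ⟨i, -, rfl⟩ := (Orb.mk_eq (Nat.pow_pos hp) (rot_order (Nat.pow_pos hp))).1 hxy
    have h1 : (((Sph.rot (ζ (p ^ (k + 1))))^[i] x : Sph m) : EuclideanSpace ℂ (Fin m)) j
        = ((ζ (p ^ (k + 1)) ^ i : Circle) : ℂ) * (x : EuclideanSpace ℂ (Fin m)) j := by
      rw [Sph.rot_iterate, Sph.rot_apply]
    refine ⟨?_, ?_⟩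
    · rw [h1]
      exact mul_ne_zero (Circle.coe_ne_zero _) hx
    · rw [h1, dirn_mul _ hx, mul_pow, ← pow_mul, mul_comm i p, pow_mul]
      have h2 : ζ (p ^ (k + 1)) ^ p = ζ (p ^ k) := by
        rw [pow_succ' p k, ζ_pow_mul hp]
      rw [h2, pt_iterate]
  set A : Fin m → Set (LensSpace m (p ^ (k + 1))) := fun j =>
    π' '' {x | (x : EuclideanSpace ℂ (Fin m)) j ≠ 0} with hA
  have hpre : ∀ j x, π' x ∈ A j → (x : EuclideanSpace ℂ (Fin m)) j ≠ 0 := by
    rintro j x ⟨y, hy, h⟩
    exact (hne j y x h hy).1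
  have hAo : ∀ j, IsOpen (A j) := by
    intro j
    refine hoq.isOpenMap _ ?_
    have : Continuous fun x : Sph m => (x : EuclideanSpace ℂ (Fin m)) j := by fun_prop
    exact isOpen_ne_fun this continuous_const
  refine ⟨A, hAo, ?_, ?_⟩
  · intro b
    induction b using Quot.ind with
    | mk x =>
      obtain ⟨j, hj⟩ := Sph.exists_ne x
      exact ⟨j, x, hj, rfl⟩
  · intro j
    have hch : ∀ b : A j, ∃ x : Sph m, (x : EuclideanSpace ℂ (Fin m)) j ≠ 0 ∧ π' x = b :=
      fun b => b.2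
    choose c hc1 hc2 using hch
    refine ⟨fun b => pt m p k (c b) (dirn ((c b : EuclideanSpace ℂ (Fin m)) j) ^ p), ?_, ?_⟩
    · have hq := hoq.isQuotientMap.restrictPreimage_isOpen (hAo j)
      rw [hq.continuous_iff]
      have h1 : (fun b => pt m p k (c b) (dirn ((c b : EuclideanSpace ℂ (Fin m)) j) ^ p))
          ∘ (A j).restrictPreimage π'
          = fun x : (π' ⁻¹' A j : Set (Sph m)) =>
            pt m p k x (dirn (((x : Sph m) : EuclideanSpace ℂ (Fin m)) j) ^ p) := by
        funext x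
        exact (hne j _ _ (hc2 _) (hc1 _)).2
      rw [h1]
      refine continuous_pt.comp (continuous_subtype_val.prodMk (Continuous.pow ?_ p))
      have h2 : Continuous fun x : (π' ⁻¹' A j : Set (Sph m)) =>
          (((x : Sph m) : EuclideanSpace ℂ (Fin m)) j) := by fun_prop
      exact continuousOn_dirn.comp_continuous h2 fun x => hpre j x x.2
    · intro b
      rw [proj_pt]
      exact hc2 b

theorem genus_le (hp : 0 < p) (hm : 1 ≤ m) : schwarzGenus (proj m p k) ≤ m := by
  unfold schwarzGenus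
  exact iInf_le_of_le m (iInf_le_of_le ⟨hm, hasCover_self hp⟩ le_rfl)

end Pool.Agent.H92.Lens
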