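import Pool.Agent.H92.Lens.Cells

/-!
Orbit spaces of maps of finite order, the lens spaces and the circle bundles, sections over open covers.
-/

set_option autoImplicit false

namespace Pool.Agent.H92.Lens

open Set Real

/-- The quotient space of `Z` by the equivalence relation generated by `a ~ g a`. -/
abbrev Orb {Z : Type} (g : Z → Z) : Type := Quot fun a b : Z => b = g a

section orb

variable {Z : Type} {g : Z → Z} {N : ℕ}

theorem Orb.mk_iterate (g : Z → Z) (j : ℕ) (a : Z) :
    (Quot.mk _ (g^[j] a) : Orb g) = Quot.mk _ a := by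
  induction j with
  | zero => rfl
  | succ j ih =>
    rw [Function.iterate_succ_apply', ← ih]
    exact (Quot.sound (r := fun a b => b = g a) rfl).symm

theorem Orb.mk_eq (hN : 0 < N) (hg : g^[N] = id) {a b : Z} :
    (Quot.mk _ a : Orb g) = Quot.mk _ b ↔ ∃ j < N, b = g^[j] a := by
  constructor
  · intro h
    have h1 : ∃ j, b = g^[j] a := by
      have h2 := Quot.eqvGen_exact h
      clear h
      induction h2 with
      | rel x y hxy => exact ⟨1, hxy⟩
      | refl x => exact ⟨0, rfl⟩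
      | symm x y _ ih =>
        obtain ⟨j, rfl⟩ := ih
        refine ⟨N * j - j, ?_⟩
        rw [← Function.iterate_add_apply, Nat.sub_add_cancel (Nat.le_mul_of_pos_left _ hN),
          Function.iterate_mul, hg, Function.iterate_id]
        rfl
      | trans x y z h1 h2 ih1 ih2 =>
        obtain ⟨j, rfl⟩ := ih1
        obtain ⟨i, rfl⟩ := ih2
        exact ⟨i + j, by rw [Function.iterate_add_apply]⟩
    obtain ⟨j, rfl⟩ := h1
    refine ⟨j % N, Nat.mod_lt _ hN, ?_⟩
    conv_lhs => rw [← Nat.mod_add_div j N, Function.iterate_add_apply, Function.iterate_mul, hg,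
      Function.iterate_id]
    rfl
  · rintro ⟨j, -, rfl⟩
    exact (Orb.mk_iterate g j a).symm

variable [TopologicalSpace Z]

theorem Orb.isOpenQuotientMap (hN : 0 < N) (hg : g^[N] = id) (hc : Continuous g) :
    IsOpenQuotientMap (Quot.mk _ : Z → Orb g) := by
  refine ⟨Quot.mk_surjective, continuous_quot_mk, ?_⟩
  intro U hU
  rw [← isQuotientMap_quot_mk.isOpen_preimage]
  have h : (Quot.mk _ : Z → Orb g) ⁻¹' (Quot.mk _ '' U) = ⋃ j : ℕ, (g^[j]) ⁻¹' U := by
    ext x
    simp only [mem_preimage, mem_image, mem_iUnion]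
    constructor
    · rintro ⟨y, hy, h⟩
      obtain ⟨j, -, h1⟩ := (Orb.mk_eq hN hg).1 h.symm
      exact ⟨j, by rw [← h1]; exact hy⟩
    · rintro ⟨j, hj⟩
      exact ⟨_, hj, Orb.mk_iterate g j x⟩
  rw [h]
  exact isOpen_iUnion fun j => hU.preimage (hc.iterate j)

theorem Orb.t2 [T2Space Z] (hN : 0 < N) (hg : g^[N] = id) (hc : Continuous g) :
    T2Space (Orb g) := by
  rw [t2Space_iff_of_isOpenQuotientMap (Orb.isOpenQuotientMap hN hg hc)]
  have h : {q : Z × Z | (Quot.mk _ q.1 : Orb g) = Quot.mk _ q.2}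
      = ⋃ j ∈ Finset.range N, {q : Z × Z | q.2 = g^[j] q.1} := by
    ext q
    simp only [mem_ofPred_eq, mem_iUnion, Finset.mem_range, exists_prop]
    exact Orb.mk_eq hN hg
  rw [h]
  refine isClosed_biUnion_finset fun j _ => ?_
  exact isClosed_eq continuous_snd ((hc.iterate j).comp continuous_fst)

end orb

/-- The lens space `L^m(r)`. -/
abbrev LensSpace (m r : ℕ) : Type := Orb (Sph.rot (ζ r) : Sph m → Sph m)

/-- The homeomorphism of a lens space induced by multiplication by a unit complex number. -/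
noncomputable def LensSpace.rot {m r : ℕ} (z : Circle) : LensSpace m r → LensSpace m r :=
  Quot.map (Sph.rot z) fun x y h => by
    rw [h, Sph.rot_rot, Sph.rot_rot, mul_comm]

/-- The total space `W^m_k`. -/
abbrev W (m p k : ℕ) : Type :=
  Orb (fun a : LensSpace m p × Circle => (LensSpace.rot (ζ (p ^ (k + 1))) a.1, ζ (p ^ k) * a.2))

/-- `f` has local sections over a cover by `n` open sets. -/
def HasCover {E B : Type} [TopologicalSpace E] [TopologicalSpace B] (f : E → B) (n : ℕ) : Prop :=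
  ∃ A : Fin n → Set B, (∀ i, IsOpen (A i)) ∧ (∀ b, ∃ i, b ∈ A i) ∧
    ∀ i, ∃ s : A i → E, Continuous s ∧ ∀ b, f (s b) = b

/-- The Schwarz genus. -/
noncomputable def schwarzGenus {E B : Type} [TopologicalSpace E] [TopologicalSpace B]
    (f : E → B) : ℕ∞ := ⨅ n : ℕ, ⨅ _ : 1 ≤ n ∧ HasCover f n, (n : ℕ∞)

variable {m p k : ℕ}

theorem ζ_pow_pow (hp : 0 < p) (k : ℕ) : ζ (p ^ (k + 1)) ^ (p ^ k) = ζ p := by
  rw [pow_succ, ζ_pow_mul (Nat.pow_pos hp)]

theorem ζ_zero : ζ 0 = 1 := by simp [ζ]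

theorem mk_rot_ζ (m p k : ℕ) (x : Sph m) :
    (Quot.mk _ (Sph.rot (ζ p) x) : LensSpace m (p ^ (k + 1))) = Quot.mk _ x := by
  rcases Nat.eq_zero_or_pos p with rfl | hp
  · rw [ζ_zero, Sph.rot_one]
  · rw [← ζ_pow_pow hp k, ← Sph.rot_iterate]
    exact Orb.mk_iterate _ _ _

/-- The covering `L^m(p) → L^m(p^(k+1))`. -/
def LensSpace.cov (m p k : ℕ) : LensSpace m p → LensSpace m (p ^ (k + 1)) :=
  Quot.lift (fun x => Quot.mk _ x) fun x y h => by
    rw [h]
    exact (mk_rot_ζ m p k x).symm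

theorem LensSpace.cov_rot (x : LensSpace m p) :
    LensSpace.cov m p k (LensSpace.rot (ζ (p ^ (k + 1))) x) = LensSpace.cov m p k x := by
  induction x using Quot.ind with
  | mk x => exact (Quot.sound (r := fun a b : Sph m => b = Sph.rot (ζ (p ^ (k + 1))) a) rfl).symm

/-- The projection `W^m_k → L^m(p^(k+1))`. -/
def proj (m p k : ℕ) : W m p k → LensSpace m (p ^ (k + 1)) :=
  Quot.lift (fun a => LensSpace.cov m p k a.1) fun a b h => by
    rw [h]
    exact (LensSpace.cov_rot a.1).symm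

end Pool.Agent.H92.Lens
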