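import Pool.Agent.H92.Lens.Abs

/-!
The cells of the sphere and their contractions.
-/

set_option autoImplicit false

namespace Pool.Agent.H92.Lens

open Set Real

section cone

variable {V : Type} [NormedAddCommGroup V] [NormedSpace ℝ V] [ProperSpace V]

/-- The normalised segment. -/
noncomputable def nseg (v : V) (t : ℝ) (x : V) : V :=
  ‖(1 - t) • x + t • v‖⁻¹ • ((1 - t) • x + t • v)

theorem norm_nseg {v : V} {t : ℝ} {x : V} (h : (1 - t) • x + t • v ≠ 0) : ‖nseg v t x‖ = 1 := by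
  rw [nseg, norm_smul, norm_inv, norm_norm, inv_mul_cancel₀ (norm_ne_zero_iff.2 h)]

theorem contr_of_cone (C : Set V) (hC : IsClosed C)
    (hadd : ∀ x ∈ C, ∀ y ∈ C, ∀ a b : ℝ, 0 ≤ a → 0 ≤ b → a • x + b • y ∈ C)
    (v : Metric.sphere (0 : V) 1) (hv : (v : V) ∈ C) (φ : V →ₗ[ℝ] ℝ) (hφ : ∀ x ∈ C, 0 ≤ φ x)
    (hφv : 0 < φ v) : Contr {x : Metric.sphere (0 : V) 1 | (x : V) ∈ C} := by
  classical
  have hne : ∀ t ∈ Icc (0 : ℝ) 1, ∀ x : Metric.sphere (0 : V) 1, (x : V) ∈ C →
      (1 - t) • (x : V) + t • (v : V) ≠ 0 := by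
    intro t ht x hx h
    have h1 : (1 - t) * φ x + t * φ v = 0 := by
      have := congrArg φ h
      simpa using this
    have h2 : 0 ≤ (1 - t) * φ x := mul_nonneg (by linarith [ht.2]) (hφ _ hx)
    have h3 : 0 ≤ t * φ v := mul_nonneg ht.1 hφv.le
    have h4 : t * φ v = 0 := by linarith
    have h5 : t = 0 := (mul_eq_zero.1 h4).resolve_right hφv.ne'
    rw [h5, sub_zero, one_smul, zero_smul, add_zero] at h
    have h6 := x.2
    rw [mem_sphere_zero_iff_norm, h, norm_zero] at h6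
    exact zero_ne_one h6
  set H : ℝ → Metric.sphere (0 : V) 1 → Metric.sphere (0 : V) 1 := fun t x =>
    if h : (1 - t) • (x : V) + t • (v : V) ≠ 0 then ⟨nseg v t x, by
      rw [mem_sphere_zero_iff_norm]; exact norm_nseg h⟩ else x with hH
  have hHv : ∀ t ∈ Icc (0 : ℝ) 1, ∀ x : Metric.sphere (0 : V) 1, (x : V) ∈ C →
      (H t x : V) = nseg (v : V) t (x : V) := by
    intro t ht x hx
    rw [hH]
    simp only []
    rw [dif_pos (hne t ht x hx)]
  have hone : ∀ x : Metric.sphere (0 : V) 1, ‖(x : V)‖ = 1 := fun x =>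
    mem_sphere_zero_iff_norm.1 x.2
  refine ⟨v, hv, H, ?_, ?_, ?_, ?_⟩
  · intro t ht x hx
    show (H t x : V) ∈ C
    rw [hHv t ht x hx, nseg]
    have h1 := hadd x hx v hv (1 - t) t (by linarith [ht.2]) ht.1
    have h2 := hadd _ h1 _ hv (‖(1 - t) • (x : V) + t • (v : V)‖⁻¹) 0 (by positivity) le_rfl
    rwa [zero_smul, add_zero] at h2
  · intro x hx
    apply Subtype.ext
    rw [hHv 0 (by simp) x hx, nseg]
    simp [hone]
  · intro x hx
    apply Subtype.ext
    rw [hHv 1 (by simp) x hx, nseg]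
    simp [hone]
  · intro ε hε
    have hE : IsCompact {x : Metric.sphere (0 : V) 1 | (x : V) ∈ C} :=
      (hC.preimage continuous_subtype_val).isCompact
    have hK : IsCompact (Icc (0 : ℝ) 1 ×ˢ {x : Metric.sphere (0 : V) 1 | (x : V) ∈ C}) :=
      isCompact_Icc.prod hE
    have hcont : ContinuousOn (fun z : ℝ × Metric.sphere (0 : V) 1 => H z.1 z.2)
        (Icc (0 : ℝ) 1 ×ˢ {x : Metric.sphere (0 : V) 1 | (x : V) ∈ C}) := by
      rw [Topology.IsInducing.subtypeVal.continuousOn_iff]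
      have h1 : ContinuousOn (fun z : ℝ × Metric.sphere (0 : V) 1 => nseg (v : V) z.1 (z.2 : V))
          (Icc (0 : ℝ) 1 ×ˢ {x : Metric.sphere (0 : V) 1 | (x : V) ∈ C}) := by
        unfold nseg
        refine ContinuousOn.smul (ContinuousOn.inv₀ ?_ ?_) ?_
        · fun_prop
        · rintro ⟨t, x⟩ ⟨ht, hx⟩
          exact norm_ne_zero_iff.2 (hne t ht x hx)
        · fun_prop
      refine h1.congr ?_
      rintro ⟨t, x⟩ ⟨ht, hx⟩
      exact hHv t ht x hx
    obtain ⟨δ, hδ, h⟩ := Metric.uniformContinuousOn_iff.1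
      (hK.uniformContinuousOn_of_continuous hcont) ε hε
    refine ⟨δ, hδ, ?_⟩
    intro s hs t ht x hx y hy hst hxy
    refine h (s, x) ⟨hs, hx⟩ (t, y) ⟨ht, hy⟩ ?_
    rw [Prod.dist_eq]
    exact max_lt (by rw [Real.dist_eq]; exact hst) hxy

end cone

/-- The unit sphere of dimension `2 * m - 1`. -/
abbrev Sph (m : ℕ) := Metric.sphere (0 : EuclideanSpace ℂ (Fin m)) 1

/-- Multiplication of the coordinates by a unit complex number. -/
noncomputable def Sph.rot {m : ℕ} (z : Circle) (x : Sph m) : Sph m :=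
  ⟨(z : ℂ) • (x : EuclideanSpace ℂ (Fin m)), by
    rw [mem_sphere_zero_iff_norm, norm_smul, Circle.norm_coe, one_mul]
    exact mem_sphere_zero_iff_norm.1 x.2⟩

/-- The unit complex number `exp (2 π i / r)`. -/
noncomputable def ζ (r : ℕ) : Circle := Circle.exp (2 * π / r)

variable {m : ℕ}

theorem Sph.rot_apply (z : Circle) (x : Sph m) (l : Fin m) :
    (Sph.rot z x : EuclideanSpace ℂ (Fin m)) l = z * (x : EuclideanSpace ℂ (Fin m)) l := rfl

theorem Sph.rot_rot (z w : Circle) (x : Sph m) : Sph.rot z (Sph.rot w x) = Sph.rot (z * w) x := by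
  apply Subtype.ext
  simp only [Sph.rot, Circle.coe_mul, mul_smul]

theorem Sph.rot_one (x : Sph m) : Sph.rot 1 x = x := by
  apply Subtype.ext
  simp [Sph.rot]

theorem Sph.rot_iterate (z : Circle) (j : ℕ) (x : Sph m) :
    (Sph.rot z)^[j] x = Sph.rot (z ^ j) x := by
  induction j with
  | zero => simp [Sph.rot_one]
  | succ j ih => rw [Function.iterate_succ_apply', ih, Sph.rot_rot, pow_succ']

theorem ζ_pow_self {r : ℕ} (hr : 0 < r) : ζ r ^ r = 1 := by
  have hr' : (r : ℝ) ≠ 0 := by exact_mod_cast hr.ne'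
  rw [ζ, ← Circle.exp_natCast_mul, mul_div_cancel₀ _ hr', Circle.exp_two_pi]

theorem ζ_pow_mul {p r : ℕ} (hp : 0 < p) : ζ (p * r) ^ p = ζ r := by
  have hp' : (p : ℝ) ≠ 0 := by exact_mod_cast hp.ne'
  rw [ζ, ζ, ← Circle.exp_natCast_mul]
  congr 1
  push_cast
  rw [← mul_div_assoc, mul_div_mul_left _ _ hp']

theorem dvd_of_ζ_pow {r j : ℕ} (hr : 0 < r) (h : ζ r ^ j = 1) : r ∣ j := by
  have hr' : (r : ℝ) ≠ 0 := by exact_mod_cast hr.ne'
  rw [ζ, ← Circle.exp_natCast_mul, Circle.exp_eq_one] at h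
  obtain ⟨n, hn⟩ := h
  have h1 : (j : ℝ) = r * n := by
    have h2 : (2 * π) * (j : ℝ) = (2 * π) * (r * n) := by
      field_simp at hn
      linear_combination (2 * π) * hn
    exact mul_left_cancel₀ (by positivity) h2
  have h3 : (j : ℤ) = r * n := by exact_mod_cast h1
  exact Int.natCast_dvd_natCast.1 ⟨n, h3⟩

theorem Sph.exists_ne (x : Sph m) : ∃ l, (x : EuclideanSpace ℂ (Fin m)) l ≠ 0 := by
  by_contra h
  push Not at h
  have h1 : (x : EuclideanSpace ℂ (Fin m)) = 0 := by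
    ext l
    exact h l
  have h2 := x.2
  rw [mem_sphere_zero_iff_norm, h1, norm_zero] at h2
  exact zero_ne_one h2

theorem Sph.rot_free {z : Circle} {x : Sph m} (h : Sph.rot z x = x) : z = 1 := by
  obtain ⟨l, hl⟩ := Sph.exists_ne x
  have h1 : (z : ℂ) * (x : EuclideanSpace ℂ (Fin m)) l = (x : EuclideanSpace ℂ (Fin m)) l := by
    rw [← Sph.rot_apply, h]
  apply Circle.ext
  rw [Circle.coe_one]
  exact mul_right_cancel₀ hl (by rw [h1, one_mul])

theorem Sph.dist_rot (z : Circle) (x y : Sph m) : dist (Sph.rot z x) (Sph.rot z y) = dist x y := by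
  rw [Subtype.dist_eq, Subtype.dist_eq, dist_eq_norm, dist_eq_norm]
  simp only [Sph.rot]
  rw [← smul_sub, norm_smul, Circle.norm_coe, one_mul]

theorem Sph.continuous_rot (z : Circle) : Continuous (Sph.rot z : Sph m → Sph m) :=
  (Isometry.of_dist_eq (Sph.dist_rot z)).continuous

end Pool.Agent.H92.Lens
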